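import Mathlib

set_option autoImplicit false

/-! Explicit isometry of hermitian forms over `ℤ[t,t⁻¹]`, in any commutative ring with `t s = 1`. -/

namespace Pool.Agent.V11197.Stab

open Matrix

/-- the coordinates of the isometry (columns) -/
def PP {R : Type*} [CommRing R] (t s : R) : Matrix (Fin 4) (Fin 4) R :=
  !![-1 - 12 * (t - s) - 26 * (t - s) ^ 2, 1 - 6 * (t - s) - 18 * (t - s) ^ 2, 20 * (t - s) + 50 * (t - s) ^ 2, (t - 1) * (t - s) * (-4 - 10 * (t - s)); 4 + 65 * (t - s), -3 + 45 * (t - s), -125 * (t - s), 25 * (t - 1) * (t - s); 13 * (t - s), 9 * (t - s), 1 - 25 * (t - s), 5 * (t - s) * (t - 1); -65 * (1 + s), -45 * (1 + s), 125 * (1 + s), 1 - 25 * (t - s)]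

/-- the coordinates of the inverse isometry -/
def PI {R : Type*} [CommRing R] (t s : R) : Matrix (Fin 4) (Fin 4) R :=
  !![3 - 195 * (t - s), 1 - 56 * (t - s) - 78 * (t - s) ^ 2, 65 * (t - s), -13 * (t - 1) * (t - s); 4 - 135 * (t - s), 1 - 38 * (t - s) - 54 * (t - s) ^ 2, 45 * (t - s), -9 * (t - 1) * (t - s); -75 * (t - s), -(22 * (t - s) + 30 * (t - s) ^ 2), 1 + 25 * (t - s), -5 * (t - s) * (t - 1); 375 * (1 + s), (1 + s) * (110 + 150 * (t - s)), -125 * (1 + s), 1 + 25 * (t - s)]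

/-- the Gram matrix of the form `L + H2` -/
def gramL {R : Type*} [CommRing R] (t s : R) : Matrix (Fin 4) (Fin 4) R :=
  !![25, 7 + 10 * (t - s), 0, 0; 7 - 10 * (t - s), 10 - 4 * (t * t + s * s), 0, 0; 0, 0, 0, t - 1; 0, 0, s - 1, 0]

/-- the Gram matrix of the form `1 + H2` -/
def gramI {R : Type*} [CommRing R] (t s : R) : Matrix (Fin 4) (Fin 4) R :=
  !![1, 0, 0, 0; 0, 1, 0, 0; 0, 0, 0, t - 1; 0, 0, s - 1, 0]


theorem isom {R : Type*} [CommRing R] (t s : R) (h : t * s = 1) :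
    (PP s t)ᵀ * gramL t s * PP t s = gramI t s := by
  apply Matrix.ext
  intro i j
  fin_cases i <;> fin_cases j <;>
    simp [PP, PI, gramL, gramI, Matrix.mul_apply, Fin.sum_univ_four]
  · linear_combination ((-128) + 33800 * s ^ 2 + (-67600) * t ^ 1 * s ^ 1 + 33800 * t ^ 2) * h
  · linear_combination (96 + 3000 * s ^ 1 + 23400 * s ^ 2 + (-3000) * t ^ 1 + (-46800) * t ^ 1 * s ^ 1 + 23400 * t ^ 2) * h
  · linear_combination ((-65) + (-4000) * s ^ 1 + (-65000) * s ^ 2 + 4000 * t ^ 1 + 130000 * t ^ 1 * s ^ 1 + (-65000) * t ^ 2) * h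
  · linear_combination ((-1125) * s ^ 1 + (-13000) * s ^ 2 + 1125 * t ^ 1 + 27125 * t ^ 1 * s ^ 1 + 13000 * t ^ 1 * s ^ 2 + (-14125) * t ^ 2 + (-26000) * t ^ 2 * s ^ 1 + 13000 * t ^ 3) * h
  · linear_combination (96 + (-3000) * s ^ 1 + 23400 * s ^ 2 + 3000 * t ^ 1 + (-46800) * t ^ 1 * s ^ 1 + 23400 * t ^ 2) * h
  · linear_combination ((-72) + 16200 * s ^ 2 + (-32400) * t ^ 1 * s ^ 1 + 16200 * t ^ 2) * h
  · linear_combination ((-45) + 3000 * s ^ 1 + (-45000) * s ^ 2 + (-3000) * t ^ 1 + 90000 * t ^ 1 * s ^ 1 + (-45000) * t ^ 2) * h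
  · linear_combination (375 * s ^ 1 + (-9000) * s ^ 2 + (-375) * t ^ 1 + 17625 * t ^ 1 * s ^ 1 + 9000 * t ^ 1 * s ^ 2 + (-8625) * t ^ 2 + (-18000) * t ^ 2 * s ^ 1 + 9000 * t ^ 3) * h
  · linear_combination ((-65) + 4000 * s ^ 1 + (-65000) * s ^ 2 + (-4000) * t ^ 1 + 130000 * t ^ 1 * s ^ 1 + (-65000) * t ^ 2) * h
  · linear_combination ((-45) + (-3000) * s ^ 1 + (-45000) * s ^ 2 + 3000 * t ^ 1 + 90000 * t ^ 1 * s ^ 1 + (-45000) * t ^ 2) * h
  · linear_combination (250 + 125000 * s ^ 2 + (-250000) * t ^ 1 * s ^ 1 + 125000 * t ^ 2) * h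
  · linear_combination (625 * s ^ 1 + 25000 * s ^ 2 + (-625) * t ^ 1 + (-50625) * t ^ 1 * s ^ 1 + (-25000) * t ^ 1 * s ^ 2 + 25625 * t ^ 2 + 50000 * t ^ 2 * s ^ 1 + (-25000) * t ^ 3) * h
  · linear_combination (1125 * s ^ 1 + (-14125) * s ^ 2 + 13000 * s ^ 3 + (-1125) * t ^ 1 + 27125 * t ^ 1 * s ^ 1 + (-26000) * t ^ 1 * s ^ 2 + (-13000) * t ^ 2 + 13000 * t ^ 2 * s ^ 1) * h
  · linear_combination ((-375) * s ^ 1 + (-8625) * s ^ 2 + 9000 * s ^ 3 + 375 * t ^ 1 + 17625 * t ^ 1 * s ^ 1 + (-18000) * t ^ 1 * s ^ 2 + (-9000) * t ^ 2 + 9000 * t ^ 2 * s ^ 1) * h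
  · linear_combination ((-625) * s ^ 1 + 25625 * s ^ 2 + (-25000) * s ^ 3 + 625 * t ^ 1 + (-50625) * t ^ 1 * s ^ 1 + 50000 * t ^ 1 * s ^ 2 + 25000 * t ^ 2 + (-25000) * t ^ 2 * s ^ 1) * h
  · linear_combination (5000 * s ^ 2 + (-5000) * s ^ 3 + (-10000) * t ^ 1 * s ^ 1 + 5000 * t ^ 1 * s ^ 2 + 5000 * t ^ 1 * s ^ 3 + 5000 * t ^ 2 + 5000 * t ^ 2 * s ^ 1 + (-10000) * t ^ 2 * s ^ 2 + (-5000) * t ^ 3 + 5000 * t ^ 3 * s ^ 1) * h

theorem inv1 {R : Type*} [CommRing R] (t s : R) (h : t * s = 1) :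
    PP t s * PI t s = 1 := by
  apply Matrix.ext
  intro i j
  fin_cases i <;> fin_cases j <;>
    simp [PP, PI, gramL, gramI, Matrix.mul_apply, Fin.sum_univ_four]
  · linear_combination (1500 * s ^ 1 + (-3750) * s ^ 2 + (-1500) * t ^ 1 + 7500 * t ^ 1 * s ^ 1 + (-3750) * t ^ 2) * h
  · linear_combination (440 * s ^ 1 + (-1700) * s ^ 2 + 1500 * s ^ 3 + (-440) * t ^ 1 + 3400 * t ^ 1 * s ^ 1 + (-4500) * t ^ 1 * s ^ 2 + (-1700) * t ^ 2 + 4500 * t ^ 2 * s ^ 1 + (-1500) * t ^ 3) * h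
  · linear_combination ((-500) * s ^ 1 + 1250 * s ^ 2 + 500 * t ^ 1 + (-2500) * t ^ 1 * s ^ 1 + 1250 * t ^ 2) * h
  · linear_combination (0) * h
  · linear_combination ((-9375) * s ^ 1 + 9375 * t ^ 1) * h
  · linear_combination ((-2750) * s ^ 1 + 3750 * s ^ 2 + 2750 * t ^ 1 + (-7500) * t ^ 1 * s ^ 1 + 3750 * t ^ 2) * h
  · linear_combination (3125 * s ^ 1 + (-3125) * t ^ 1) * h
  · linear_combination (0) * h
  · linear_combination ((-1875) * s ^ 1 + 1875 * t ^ 1) * h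
  · linear_combination ((-550) * s ^ 1 + 750 * s ^ 2 + 550 * t ^ 1 + (-1500) * t ^ 1 * s ^ 1 + 750 * t ^ 2) * h
  · linear_combination (625 * s ^ 1 + (-625) * t ^ 1) * h
  · linear_combination (0) * h
  · linear_combination (0) * h
  · linear_combination (0) * h
  · linear_combination (0) * h
  · linear_combination ((-625) * s ^ 1 + 625 * t ^ 1) * h

theorem inv2 {R : Type*} [CommRing R] (t s : R) (h : t * s = 1) :
    PI t s * PP t s = 1 := by
  apply Matrix.ext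
  intro i j
  fin_cases i <;> fin_cases j <;>
    simp [PP, PI, gramL, gramI, Matrix.mul_apply, Fin.sum_univ_four]
  · linear_combination ((-845) * s ^ 1 + 845 * t ^ 1) * h
  · linear_combination ((-585) * s ^ 1 + 585 * t ^ 1) * h
  · linear_combination (1625 * s ^ 1 + (-1625) * t ^ 1) * h
  · linear_combination (0) * h
  · linear_combination ((-585) * s ^ 1 + 585 * t ^ 1) * h
  · linear_combination ((-405) * s ^ 1 + 405 * t ^ 1) * h
  · linear_combination (1125 * s ^ 1 + (-1125) * t ^ 1) * h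
  · linear_combination (0) * h
  · linear_combination ((-325) * s ^ 1 + 325 * t ^ 1) * h
  · linear_combination ((-225) * s ^ 1 + 225 * t ^ 1) * h
  · linear_combination (625 * s ^ 1 + (-625) * t ^ 1) * h
  · linear_combination (0) * h
  · linear_combination (0) * h
  · linear_combination (0) * h
  · linear_combination (0) * h
  · linear_combination ((-625) * s ^ 1 + 625 * t ^ 1) * h

theorem PP_map {R S : Type*} [CommRing R] [CommRing S] (σ : R →+* S) (t s : R) :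
    (PP t s).map σ = PP (σ t) (σ s) := by
  apply Matrix.ext
  intro i j
  have h : ∀ (n : ℕ) [n.AtLeastTwo], σ (OfNat.ofNat n) = OfNat.ofNat n := fun n _ => map_ofNat σ n
  fin_cases i <;> fin_cases j <;> simp [PP, h]

end Pool.Agent.V11197.Stab
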