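import Mathlib

set_option autoImplicit false

/-!
Determinants `det[(x_j - x_k)^{n+m}]` over `ZMod p`, where `p = 2n+1` and the `x_j` are the nonzero
squares.
-/

open Finset Matrix

namespace Pool.Agent.V11197.SkewLegendre

/-- the coefficients -/
def coef (F : Type*) [Field F] (n m r : ℕ) : F :=
  (-1) ^ (n + m - r) * ((n + m).choose r : F) +
    if r ≤ m then (-1) ^ (m - r) * ((n + m).choose (n + r) : F) else 0

theorem entry {F : Type*} [Field F] (n m : ℕ) (hmn : m + 1 ≤ n) (x y : F) (hx : x ^ n = 1)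
    (hy : y ^ n = 1) :
    (x - y) ^ (n + m) = ∑ r ∈ range n, x ^ r * (coef F n m r * (y ^ m * y⁻¹ ^ r)) := by
  have hy0 : y ≠ 0 := by
    rintro rfl
    rw [zero_pow (by omega)] at hy
    exact zero_ne_one hy
  rw [sub_eq_add_neg, add_pow, show n + m + 1 = n + (m + 1) by ring, sum_range_add]
  have h2 : ∑ i ∈ range (m + 1), (x ^ (n + i) * (-y) ^ (n + m - (n + i)) *
      ((n + m).choose (n + i) : F)) = ∑ r ∈ range n, x ^ r * ((if r ≤ m then
        (-1) ^ (m - r) * ((n + m).choose (n + r) : F) else 0) * (y ^ m * y⁻¹ ^ r)) := by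
    rw [← sum_subset (range_mono hmn)]
    · refine sum_congr rfl fun i hi => ?_
      rw [mem_range] at hi
      have him : i ≤ m := by omega
      rw [if_pos him, pow_add, hx, one_mul, show n + m - (n + i) = m - i by omega,
        neg_pow, pow_sub₀ y hy0 him, inv_pow]
      ring
    · intro r _ hr
      rw [mem_range] at hr
      rw [if_neg (by omega)]
      ring
  have h1 : ∑ i ∈ range n, (x ^ i * (-y) ^ (n + m - i) * ((n + m).choose i : F)) =
      ∑ r ∈ range n, x ^ r * (((-1) ^ (n + m - r) * ((n + m).choose r : F)) *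
        (y ^ m * y⁻¹ ^ r)) := by
    refine sum_congr rfl fun i hi => ?_
    rw [mem_range] at hi
    rw [neg_pow, pow_sub₀ y hy0 (by omega : i ≤ n + m), pow_add y n m, hy, one_mul, inv_pow]
    ring
  rw [h1, h2, ← sum_add_distrib]
  refine sum_congr rfl fun i _ => ?_
  rw [coef]
  ring

section ZModp

variable (p n : ℕ) [Fact p.Prime]

/-- the squares `(k+1)^2` -/
def sqv (k : Fin n) : ZMod p := ((k : ZMod p) + 1) ^ 2

theorem sum_univ_eq (f : ZMod p → ZMod p) : ∑ a : ZMod p, f a = ∑ i ∈ range p, f (i : ZMod p) := by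
  symm
  refine sum_bij (fun i _ => (i : ZMod p)) (fun _ _ => mem_univ _) ?_ ?_ (fun _ _ => rfl)
  · intro i hi j hj hij
    rw [mem_range] at hi hj
    have := congrArg ZMod.val hij
    rwa [ZMod.val_natCast_of_lt hi, ZMod.val_natCast_of_lt hj] at this
  · intro a _
    exact ⟨a.val, mem_range.2 (ZMod.val_lt a), ZMod.natCast_zmod_val a⟩

theorem cast_ne_zero' (hp : p = 2 * n + 1) (k : ℕ) (hk : k < n) : ((k : ZMod p) + 1) ≠ 0 := by
  have h1 : ((k : ZMod p) + 1) = ((k + 1 : ℕ) : ZMod p) := by push_cast; ring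
  rw [h1, Ne, ZMod.natCast_eq_zero_iff]
  intro h
  have := Nat.le_of_dvd (by omega) h
  omega

theorem sqv_pow (hp : p = 2 * n + 1) (k : Fin n) : sqv p n k ^ n = 1 := by
  have h1 := ZMod.pow_card_sub_one_eq_one (cast_ne_zero' p n hp k k.2)
  rw [sqv, ← pow_mul, show 2 * n = p - 1 by omega, h1]

theorem two_ne_zero' (hp : p = 2 * n + 1) (hn : 0 < n) : (2 : ZMod p) ≠ 0 := by
  have h1 : (2 : ZMod p) = ((2 : ℕ) : ZMod p) := by push_cast; ring
  rw [h1, Ne, ZMod.natCast_eq_zero_iff]
  intro h
  have := Nat.le_of_dvd (by omega) h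
  omega

theorem sum_pow (hp : p = 2 * n + 1) (t : ℕ) (ht0 : 0 < t) (ht : t < n) :
    ∑ k ∈ range n, (((k : ZMod p) + 1) ^ 2) ^ t = 0 := by
  have h1 : ∑ a : ZMod p, a ^ (2 * t) = 0 := by
    apply FiniteField.sum_pow_lt_card_sub_one
    rw [ZMod.card]
    omega
  rw [sum_univ_eq, show range p = range (1 + (n + n)) by rw [hp]; congr 1; ring,
    sum_range_add, sum_range_add] at h1
  simp only [range_one, sum_singleton, Nat.cast_zero] at h1
  rw [zero_pow (by omega), zero_add] at h1
  have h2 : ∑ x ∈ range n, ((1 + x : ℕ) : ZMod p) ^ (2 * t) =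
      ∑ k ∈ range n, (((k : ZMod p) + 1) ^ 2) ^ t := by
    refine sum_congr rfl fun k _ => ?_
    rw [pow_mul]
    push_cast
    ring
  have h3 : ∑ x ∈ range n, ((1 + (n + x) : ℕ) : ZMod p) ^ (2 * t) =
      ∑ k ∈ range n, (((k : ZMod p) + 1) ^ 2) ^ t := by
    rw [← sum_range_reflect]
    refine sum_congr rfl fun k hk => ?_
    rw [mem_range] at hk
    rw [pow_mul]
    congr 1
    have h4 : ((1 + (n + (n - 1 - k)) : ℕ) : ZMod p) = -((k : ZMod p) + 1) := by
      have h5 : ((1 + (n + (n - 1 - k)) + (k + 1) : ℕ) : ZMod p) = 0 := by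
        rw [show 1 + (n + (n - 1 - k)) + (k + 1) = p by omega]
        exact ZMod.natCast_self p
      rw [Nat.cast_add] at h5
      have h6 := eq_neg_of_add_eq_zero_left h5
      rw [h6]
      push_cast
      ring
    rw [h4]
    ring
  rw [h2, h3, ← two_mul] at h1
  exact (mul_eq_zero.1 h1).resolve_left (two_ne_zero' p n hp (by omega))

theorem sqv_ne_zero (hp : p = 2 * n + 1) (k : Fin n) : sqv p n k ≠ 0 :=
  pow_ne_zero _ (cast_ne_zero' p n hp k k.2)

theorem gram (hp : p = 2 * n + 1) :
    (vandermonde (sqv p n))ᵀ * vandermonde (fun k => (sqv p n k)⁻¹) =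
      (n : ZMod p) • (1 : Matrix (Fin n) (Fin n) (ZMod p)) := by
  ext r s
  rw [Matrix.mul_apply, Matrix.smul_apply]
  simp only [Matrix.transpose_apply, vandermonde_apply, smul_eq_mul]
  by_cases hrs : r = s
  · subst hrs
    rw [Matrix.one_apply_eq, mul_one]
    have : ∀ k : Fin n, sqv p n k ^ (r : ℕ) * (sqv p n k)⁻¹ ^ (r : ℕ) = 1 := by
      intro k
      rw [← mul_pow, mul_inv_cancel₀ (sqv_ne_zero p n hp k), one_pow]
    rw [sum_congr rfl (fun k _ => this k)]
    simp
  · rw [Matrix.one_apply_ne hrs, mul_zero]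
    -- the exponent `t ≡ r - s`
    obtain ⟨t, ht0, htn, ht⟩ : ∃ t, 0 < t ∧ t < n ∧ ∀ k : Fin n,
        sqv p n k ^ (r : ℕ) * (sqv p n k)⁻¹ ^ (s : ℕ) = sqv p n k ^ t := by
      rcases Nat.lt_or_ge (s : ℕ) (r : ℕ) with h | h
      · refine ⟨r - s, by omega, by omega, fun k => ?_⟩
        rw [pow_sub₀ _ (sqv_ne_zero p n hp k) h.le, inv_pow]
      · have h' : (r : ℕ) < s := lt_of_le_of_ne h fun h2 => hrs (Fin.ext h2)
        refine ⟨n + r - s, by omega, by omega, fun k => ?_⟩
        rw [pow_sub₀ _ (sqv_ne_zero p n hp k) (by omega), pow_add, sqv_pow p n hp, one_mul,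
          inv_pow]
    simp_rw [ht]
    have h1 := sum_pow p n hp t ht0 htn
    rw [← Fin.sum_univ_eq_sum_range (fun k => (((k : ZMod p) + 1) ^ 2) ^ t) n] at h1
    exact h1

theorem det_formula (hp : p = 2 * n + 1) (m : ℕ) (hmn : m + 1 ≤ n) :
    (Matrix.of fun j k : Fin n => (sqv p n j - sqv p n k) ^ (n + m)).det =
      (n : ZMod p) ^ n * (∏ r ∈ range n, coef (ZMod p) n m r) * (∏ k, sqv p n k) ^ m := by
  have h1 : (Matrix.of fun j k : Fin n => (sqv p n j - sqv p n k) ^ (n + m)) =
      vandermonde (sqv p n) * (Matrix.diagonal (fun r : Fin n => coef (ZMod p) n m r) *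
        (Matrix.of fun j k : Fin n => (sqv p n j) ^ m *
          vandermonde (fun k => (sqv p n k)⁻¹) j k)ᵀ) := by
    ext j k
    rw [Matrix.of_apply, entry n m hmn _ _ (sqv_pow p n hp j) (sqv_pow p n hp k),
      Matrix.mul_apply,
      ← Fin.sum_univ_eq_sum_range
        (fun r => sqv p n j ^ r * (coef (ZMod p) n m r * (sqv p n k ^ m * (sqv p n k)⁻¹ ^ r))) n]
    refine sum_congr rfl fun r _ => ?_
    rw [Matrix.diagonal_mul, Matrix.transpose_apply, Matrix.of_apply]
    simp only [vandermonde_apply]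
  have h2 : (vandermonde (sqv p n)).det * (vandermonde (fun k => (sqv p n k)⁻¹)).det =
      (n : ZMod p) ^ n := by
    have h3 := congrArg Matrix.det (gram p n hp)
    rw [Matrix.det_mul, Matrix.det_transpose, Matrix.det_smul, Matrix.det_one, mul_one,
      Fintype.card_fin] at h3
    exact h3
  rw [h1, Matrix.det_mul, Matrix.det_mul, Matrix.det_diagonal, Matrix.det_transpose,
    Matrix.det_mul_column, ← h2, prod_pow,
    Fin.prod_univ_eq_prod_range (fun r => coef (ZMod p) n m r) n]
  ring

end ZModp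

section Wilson

variable (p h : ℕ) [Fact p.Prime]

theorem wilson_sq (hp : p = 4 * h + 1) : (((2 * h).factorial : ℕ) : ZMod p) ^ 2 = -1 := by
  have h1 := ZMod.wilsons_lemma p
  rw [show p - 1 = 2 * h + 2 * h by omega, ← Nat.factorial_mul_ascFactorial,
    Nat.ascFactorial_eq_prod_range, Nat.cast_mul, Nat.cast_prod] at h1
  have h2 : ∏ x ∈ range (2 * h), ((2 * h + 1 + x : ℕ) : ZMod p) =
      (((2 * h).factorial : ℕ) : ZMod p) := by
    rw [← prod_range_add_one_eq_factorial, Nat.cast_prod, ← prod_range_reflect]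
    have h3 : ∀ x ∈ range (2 * h), ((2 * h + 1 + (2 * h - 1 - x) : ℕ) : ZMod p) =
        (-1) * ((x + 1 : ℕ) : ZMod p) := by
      intro x hx
      rw [mem_range] at hx
      have h5 : ((2 * h + 1 + (2 * h - 1 - x) + (x + 1) : ℕ) : ZMod p) = 0 := by
        rw [show 2 * h + 1 + (2 * h - 1 - x) + (x + 1) = p by omega]
        exact ZMod.natCast_self p
      rw [Nat.cast_add] at h5
      rw [eq_neg_of_add_eq_zero_left h5]
      ring
    rw [prod_congr rfl h3, prod_mul_distrib, prod_const, card_range, pow_mul]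
    simp
  rw [h2] at h1
  rw [sq, h1]

theorem prod_sqv (hp : p = 4 * h + 1) : ∏ k, sqv p (2 * h) k = -1 := by
  rw [← wilson_sq p h hp]
  have h1 : ∏ k, sqv p (2 * h) k = ∏ k ∈ range (2 * h), ((k : ZMod p) + 1) ^ 2 :=
    Fin.prod_univ_eq_prod_range (fun k => ((k : ZMod p) + 1) ^ 2) (2 * h)
  rw [h1, prod_pow, ← prod_range_add_one_eq_factorial, Nat.cast_prod]
  congr 1
  refine prod_congr rfl fun k _ => ?_
  push_cast
  ring

end Wilson

/-- the coefficients without signs -/
def bb (n m r : ℕ) : ℕ := (n + m).choose r + if r ≤ m then (n + m).choose (m - r) else 0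

theorem coef_eq (F : Type*) [Field F] (h u r : ℕ) (hr : r < 2 * h) :
    coef F (2 * h) (2 * u + 1) r = (-1) ^ (r + 1) * (bb (2 * h) (2 * u + 1) r : F) := by
  have h1 : (-1 : F) ^ (2 * h + (2 * u + 1) - r) = (-1) ^ (r + 1) := by
    rw [neg_one_pow_eq_pow_mod_two, neg_one_pow_eq_pow_mod_two (n := r + 1)]
    congr 1
    omega
  rw [coef, bb, h1]
  split_ifs with h2
  · have h3 : (-1 : F) ^ (2 * u + 1 - r) = (-1) ^ (r + 1) := by
      rw [neg_one_pow_eq_pow_mod_two, neg_one_pow_eq_pow_mod_two (n := r + 1)]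
      congr 1
      omega
    rw [h3, Nat.choose_symm_of_eq_add (show 2 * h + (2 * u + 1) = (2 * h + r) + (2 * u + 1 - r)
      by omega)]
    push_cast
    ring
  · push_cast
    ring

theorem prod_sign (F : Type*) [Field F] (h : ℕ) :
    ∏ r ∈ range (2 * h), (-1 : F) ^ (r + 1) = (-1) ^ h := by
  induction h with
  | zero => simp
  | succ h ih =>
    rw [show 2 * (h + 1) = 2 * h + 1 + 1 by ring, prod_range_succ, prod_range_succ, ih]
    have h1 : (-1 : F) ^ (2 * h + 1) = -1 := Odd.neg_one_pow ⟨h, rfl⟩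
    have h2 : (-1 : F) ^ (2 * h + 1 + 1) = 1 := Even.neg_one_pow ⟨h + 1, by ring⟩
    rw [h1, h2, pow_succ]
    ring

/-- a symmetric product is a square -/
theorem prod_symm {F : Type*} [Field F] (f : ℕ → F) (k : ℕ)
    (hf : ∀ i < k, f (2 * k - 1 - i) = f i) :
    ∏ i ∈ range (2 * k), f i = (∏ i ∈ range k, f i) ^ 2 := by
  rw [two_mul, prod_range_add, sq]
  congr 1
  rw [← prod_range_reflect]
  refine prod_congr rfl fun i hi => ?_
  rw [mem_range] at hi
  rw [← hf i hi]
  congr 1
  omega

theorem prod_bb (F : Type*) [Field F] (u k : ℕ) :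
    ∏ r ∈ range (2 * (k + u + 1)), (bb (2 * (k + u + 1)) (2 * u + 1) r : F) =
      ((∏ r ∈ range (u + 1), (bb (2 * (k + u + 1)) (2 * u + 1) r : F)) *
        ∏ i ∈ range k, ((2 * k + 4 * u + 3).choose (2 * u + 2 + i) : F)) ^ 2 := by
  rw [show range (2 * (k + u + 1)) = range (2 * (u + 1) + 2 * k) by congr 1; ring,
    prod_range_add, mul_pow]
  congr 1
  · apply prod_symm
    intro i hi
    simp only [bb]
    rw [if_pos (by omega), if_pos (by omega),
      show 2 * (u + 1) - 1 - i = 2 * u + 1 - i by omega,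
      show 2 * u + 1 - (2 * u + 1 - i) = i by omega]
    push_cast
    ring
  · have h1 : ∀ i, (bb (2 * (k + u + 1)) (2 * u + 1) (2 * (u + 1) + i) : F) =
        ((2 * k + 4 * u + 3).choose (2 * u + 2 + i) : F) := by
      intro i
      rw [bb, if_neg (by omega), add_zero,
        show 2 * (k + u + 1) + (2 * u + 1) = 2 * k + 4 * u + 3 by ring,
        show 2 * (u + 1) + i = 2 * u + 2 + i by ring]
    simp_rw [h1]
    apply prod_symm
    intro i hi
    rw [Nat.choose_symm_of_eq_add]
    omega

/-- the determinant of the problem, with a free size `n` -/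
def skewDet (p m n : ℕ) [Fact p.Prime] : ℤ :=
  (Matrix.of fun j k : Fin n => (((j : ℤ) + 1) ^ 2 - ((k : ℤ) + 1) ^ 2) ^ m *
    legendreSym p (((j : ℤ) + 1) ^ 2 - ((k : ℤ) + 1) ^ 2)).det

theorem skewDet_cast (p u k : ℕ) [Fact p.Prime] (hp : p = 4 * (k + u + 1) + 1) :
    (skewDet p (2 * u + 1) (2 * (k + u + 1)) : ZMod p) =
      (((2 * (k + u + 1) : ℕ) : ZMod p) ^ (k + u + 1) *
        (((2 * (k + u + 1)).factorial : ℕ) : ZMod p) ^ (k + u + 2) *
        ((∏ r ∈ range (u + 1), (bb (2 * (k + u + 1)) (2 * u + 1) r : ZMod p)) *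
        ∏ i ∈ range k, ((2 * k + 4 * u + 3).choose (2 * u + 2 + i) : ZMod p))) ^ 2 := by
  set h := k + u + 1 with hh
  have h1 : (skewDet p (2 * u + 1) (2 * h) : ZMod p) =
      (Matrix.of fun j k : Fin (2 * h) =>
        (sqv p (2 * h) j - sqv p (2 * h) k) ^ (2 * h + (2 * u + 1))).det := by
    change (Int.castRingHom (ZMod p)) (skewDet p (2 * u + 1) (2 * h)) = _
    rw [skewDet, RingHom.map_det]
    congr 1
    ext i j
    rw [RingHom.mapMatrix_apply, Matrix.map_apply, Matrix.of_apply, Matrix.of_apply,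
      map_mul, map_pow, eq_intCast, eq_intCast, legendreSym.eq_pow, sqv, sqv]
    rw [show p / 2 = 2 * h by omega]
    push_cast
    rw [pow_add]
    ring
  have e1 : ∀ a f B : ZMod p, (a ^ h * f ^ (k + u + 2) * B) ^ 2 =
      a ^ (2 * h) * (f ^ 2) ^ (h + 1) * B ^ 2 := by
    intro a f B
    rw [show k + u + 2 = h + 1 by omega]
    ring
  rw [h1, det_formula p (2 * h) (by omega) (2 * u + 1) (by omega), prod_sqv p h hp,
    prod_congr rfl (fun r hr => coef_eq (ZMod p) h u r (mem_range.1 hr)), prod_mul_distrib,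
    prod_sign, prod_bb, e1, wilson_sq p h hp]
  have h2 : (-1 : ZMod p) ^ (2 * u + 1) = -1 := Odd.neg_one_pow ⟨u, rfl⟩
  rw [h2, pow_succ]
  ring

/-! ### Quadratic characters -/

section Char

variable (p : ℕ) [Fact p.Prime]

/-- the Legendre symbol of natural numbers -/
def chi (a : ℕ) : ℤ := legendreSym p (a : ℤ)

theorem chi_mul (a b : ℕ) : chi p (a * b) = chi p a * chi p b := by
  rw [chi, Nat.cast_mul, legendreSym.mul]
  rfl

theorem chi_pow (a k : ℕ) : chi p (a ^ k) = chi p a ^ k := by
  induction k with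
  | zero => simp [chi]
  | succ k ih => rw [pow_succ, chi_mul, ih, pow_succ]

theorem chi_sq (a : ℕ) (ha : (a : ZMod p) ≠ 0) : chi p a ^ 2 = 1 := by
  apply legendreSym.sq_one
  rwa [Int.cast_natCast]

theorem chi_mul_self (a : ℕ) (ha : (a : ZMod p) ≠ 0) : chi p a * chi p a = 1 := by
  rw [← sq, chi_sq p a ha]

theorem chi_prod {ι : Type*} (s : Finset ι) (f : ι → ℕ) :
    chi p (∏ i ∈ s, f i) = ∏ i ∈ s, chi p (f i) := by
  classical
  induction s using Finset.induction_on with
  | empty => simp [chi]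
  | insert a s ha ih => rw [prod_insert ha, prod_insert ha, chi_mul, ih]

theorem cast_ne_zero_of_lt (a : ℕ) (ha0 : 0 < a) (ha : a < p) : (a : ZMod p) ≠ 0 := by
  rw [Ne, ZMod.natCast_eq_zero_iff]
  intro h
  have := Nat.le_of_dvd ha0 h
  omega

theorem factorial_ne_zero (a : ℕ) (ha : a < p) : ((a.factorial : ℕ) : ZMod p) ≠ 0 := by
  rw [Ne, ZMod.natCast_eq_zero_iff, (Fact.out : p.Prime).dvd_factorial]
  omega

theorem chi_eq_of_cast (a b : ℕ) (h : (a : ZMod p) = (b : ZMod p)) : chi p a = chi p b := by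
  have h1 := congrArg (quadraticChar (ZMod p)) h
  rw [chi, chi, legendreSym, legendreSym, Int.cast_natCast, Int.cast_natCast]
  exact h1

/-- product of consecutive factorials -/
theorem chi_factorials (v k : ℕ) (hv : 2 * (v + k) < p) :
    ∏ j ∈ range (2 * k), chi p ((2 * v + j).factorial) =
      ∏ l ∈ range k, chi p (2 * (v + l) + 1) := by
  induction k with
  | zero => simp
  | succ k ih =>
    rw [show 2 * (k + 1) = 2 * k + 1 + 1 by ring, prod_range_succ, prod_range_succ,
      ih (by omega), prod_range_succ, mul_assoc]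
    congr 1
    rw [← add_assoc, Nat.factorial_succ, chi_mul, mul_comm, mul_assoc,
      chi_mul_self p _ (factorial_ne_zero p _ (by omega)), mul_one]
    congr 1
    ring

theorem odd_prod (h : ℕ) : (∏ l ∈ range h, (2 * l + 1)) * (2 ^ h * h.factorial) =
    (2 * h).factorial := by
  induction h with
  | zero => simp
  | succ h ih =>
    rw [prod_range_succ, show 2 * (h + 1) = 2 * h + 1 + 1 by ring,
      Nat.factorial_succ (2 * h + 1), Nat.factorial_succ (2 * h), ← ih, Nat.factorial_succ h]
    ring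

theorem chi_choose (N r : ℕ) (hr : r ≤ N) (hN : N < p) :
    chi p (N.choose r) = chi p N.factorial * chi p r.factorial * chi p (N - r).factorial := by
  have h1 := Nat.choose_mul_factorial_mul_factorial hr
  rw [← h1, chi_mul, chi_mul]
  have h2 := chi_mul_self p _ (factorial_ne_zero p r (by omega))
  have h3 := chi_mul_self p _ (factorial_ne_zero p (N - r) (by omega))
  calc chi p (N.choose r) = chi p (N.choose r) * (chi p r.factorial * chi p r.factorial) *
        (chi p (N - r).factorial * chi p (N - r).factorial) := by rw [h2, h3]; ring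
    _ = _ := by ring

theorem chi_choose_prod (u k : ℕ) (hp : p = 4 * (k + u + 1) + 1) :
    chi p (∏ i ∈ range k, (2 * k + 4 * u + 3).choose (2 * u + 2 + i)) =
      chi p (2 * k + 4 * u + 3).factorial ^ k * ∏ l ∈ range k, chi p (2 * (u + 1 + l) + 1) := by
  rw [chi_prod, ← chi_factorials p (u + 1) k (by omega),
    show range (2 * k) = range (k + k) by rw [two_mul], prod_range_add]
  have h1 : ∏ x ∈ range k, chi p ((2 * (u + 1) + (k + x)).factorial) =
      ∏ i ∈ range k, chi p ((2 * k + 4 * u + 3 - (2 * u + 2 + i)).factorial) := by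
    rw [← prod_range_reflect]
    refine prod_congr rfl fun i hi => ?_
    rw [mem_range] at hi
    congr 2
    omega
  rw [h1, ← prod_mul_distrib]
  have h2 : ∏ i ∈ range k, chi p ((2 * k + 4 * u + 3).choose (2 * u + 2 + i)) =
      ∏ i ∈ range k, (chi p (2 * k + 4 * u + 3).factorial *
        (chi p ((2 * (u + 1) + i).factorial) *
          chi p ((2 * k + 4 * u + 3 - (2 * u + 2 + i)).factorial))) := by
    refine prod_congr rfl fun i hi => ?_
    rw [mem_range] at hi
    rw [chi_choose p _ _ (by omega) (by omega), mul_assoc]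
    rfl
  rw [h2, prod_mul_distrib, prod_const, card_range]

/-- the number of non-residues below `p/4` -/
def nonres : ℕ := ((range p).filter fun k : ℕ => 0 < k ∧ 4 * k < p ∧ legendreSym p k = -1).card

theorem chi_eq_one_or (a : ℕ) (ha : (a : ZMod p) ≠ 0) : chi p a = 1 ∨ chi p a = -1 := by
  exact mul_self_eq_one_iff.1 (chi_mul_self p a ha)

theorem chi_factorial (h : ℕ) (hp : p = 4 * h + 1) :
    chi p h.factorial = (-1) ^ nonres p := by
  rw [← prod_range_add_one_eq_factorial, chi_prod]
  have h1 : ∀ i ∈ range h, chi p (i + 1) = if chi p (i + 1) = -1 then -1 else 1 := by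
    intro i hi
    rw [mem_range] at hi
    rcases chi_eq_one_or p (i + 1) (cast_ne_zero_of_lt p _ (by omega) (by omega)) with h2 | h2
    · rw [h2]
      norm_num
    · rw [h2]
      norm_num
  rw [prod_congr rfl h1, prod_ite, prod_const, prod_const_one, mul_one]
  congr 1
  rw [nonres]
  refine card_bij (fun i _ => i + 1) ?_ ?_ ?_
  · intro i hi
    rw [mem_filter, mem_range] at hi
    rw [mem_filter, mem_range]
    refine ⟨by omega, by omega, by omega, ?_⟩
    exact hi.2
  · intro i _ j _ hij
    omega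
  · intro b hb
    rw [mem_filter, mem_range] at hb
    refine ⟨b - 1, ?_, by omega⟩
    rw [mem_filter, mem_range]
    refine ⟨by omega, ?_⟩
    rw [show b - 1 + 1 = b by omega]
    exact hb.2.2.2

theorem chi_two_mul_factorial (h : ℕ) (hp : p = 4 * h + 1) (hh : 0 < h) :
    chi p (2 * h).factorial = chi p 2 := by
  have h1 := wilson_sq p h hp
  have h2 : chi p (2 * (2 * h).factorial) = 1 := by
    rw [chi_eq_of_cast p (2 * (2 * h).factorial) ((1 + (2 * h).factorial) ^ 2), chi_pow]
    · apply chi_sq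
      intro h3
      push_cast at h3
      have h4 : (((2 * h).factorial : ℕ) : ZMod p) = -1 := by
        rw [← eq_neg_of_add_eq_zero_right h3]
      rw [h4] at h1
      have h5 : (2 : ZMod p) = 0 := by
        have : (-1 : ZMod p) ^ 2 = -1 := h1
        have h6 : (1 : ZMod p) + 1 = 0 := by
          calc (1 : ZMod p) + 1 = (-1) ^ 2 + 1 := by ring
            _ = -1 + 1 := by rw [this]
            _ = 0 := by ring
        rw [← one_add_one_eq_two, h6]
      exact two_ne_zero' p (2 * h) (by omega) (by omega) h5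
    · push_cast
      calc (2 : ZMod p) * ((2 * h).factorial : ZMod p) =
          1 + 2 * ((2 * h).factorial : ZMod p) + (-1) := by ring
        _ = 1 + 2 * ((2 * h).factorial : ZMod p) + ((2 * h).factorial : ZMod p) ^ 2 := by rw [h1]
        _ = _ := by ring
  rw [chi_mul] at h2
  have h3 := chi_mul_self p 2 (by exact_mod_cast two_ne_zero' p (2 * h) (by omega) (by omega))
  calc chi p (2 * h).factorial = chi p 2 * chi p 2 * chi p (2 * h).factorial := by
        rw [h3, one_mul]
    _ = chi p 2 * (chi p 2 * chi p (2 * h).factorial) := by ring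
    _ = chi p 2 := by rw [h2, mul_one]

theorem chi_half (h a b : ℕ) (hp : p = 4 * h + 1) (hh : 0 < h) (hab : 2 * a = b + p) :
    chi p a = chi p b * chi p 2 := by
  have h3 := chi_mul_self p 2 (by exact_mod_cast two_ne_zero' p (2 * h) (by omega) (by omega))
  have h1 : chi p (2 * a) = chi p b := by
    apply chi_eq_of_cast
    rw [hab]
    push_cast
    rw [ZMod.natCast_self, add_zero]
  rw [chi_mul] at h1
  calc chi p a = chi p 2 * chi p 2 * chi p a := by rw [h3, one_mul]
    _ = (chi p 2 * chi p a) * chi p 2 := by ring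
    _ = _ := by rw [h1]

theorem chi_neg_one (h : ℕ) (hp : p = 4 * h + 1) : legendreSym p (-1) = 1 := by
  rw [legendreSym.at_neg_one (by omega), ZMod.χ₄_nat_one_mod_four]
  omega

theorem chi_two_h (h : ℕ) (hp : p = 4 * h + 1) (hh : 0 < h) : chi p (2 * h) = chi p 2 := by
  have h3 := chi_mul_self p 2 (by exact_mod_cast two_ne_zero' p (2 * h) (by omega) (by omega))
  have h1 : chi p (2 * (2 * h)) = 1 := by
    rw [← chi_neg_one p h hp]
    have h2 : ((2 * (2 * h) : ℕ) : ZMod p) = ((-1 : ℤ) : ZMod p) := by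
      have h5 : ((2 * (2 * h) + 1 : ℕ) : ZMod p) = 0 := by
        rw [show 2 * (2 * h) + 1 = p by omega]
        exact ZMod.natCast_self p
      rw [Nat.cast_add] at h5
      rw [eq_neg_of_add_eq_zero_left h5]
      simp
    have h6 := congrArg (quadraticChar (ZMod p)) h2
    rw [chi, legendreSym, legendreSym, Int.cast_natCast]
    exact h6
  rw [chi_mul] at h1
  calc chi p (2 * h) = chi p 2 * chi p 2 * chi p (2 * h) := by rw [h3, one_mul]
    _ = (chi p 2 * chi p (2 * h)) * chi p 2 := by ring
    _ = _ := by rw [h1, one_mul]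

theorem chi_two (h : ℕ) (hp : p = 4 * h + 1) : chi p 2 = (-1) ^ h := by
  rw [chi, Nat.cast_ofNat, legendreSym.at_two (by omega), ZMod.χ₈_nat_eq_if_mod_eight]
  rcases Nat.even_or_odd' h with ⟨t, rfl | rfl⟩
  · rw [if_neg (by omega), if_pos (by omega), pow_mul]
    norm_num
  · rw [if_neg (by omega), if_neg (by omega), pow_succ, pow_mul]
    norm_num

theorem main (u k : ℕ) (hp : p = 4 * (k + u + 1) + 1) (s : ℤ)
    (hs : s ^ 2 = skewDet p (2 * u + 1) (2 * (k + u + 1))) :
    legendreSym p s = chi p 2 ^ (k + u + 1) *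
      chi p (∏ r ∈ range (u + 1), bb (2 * (k + u + 1)) (2 * u + 1) r) *
      chi p (2 * k + 4 * u + 3).factorial ^ k * (∏ l ∈ range (u + 1), chi p (2 * l + 1)) *
      (-1) ^ nonres p := by
  have hcast := skewDet_cast p u k hp
  have hch := chi_choose_prod p u k hp
  set h := k + u + 1 with hh
  set E : ℕ := (2 * h) ^ h * (2 * h).factorial ^ (k + u + 2) *
    ((∏ r ∈ range (u + 1), bb (2 * h) (2 * u + 1) r) *
      ∏ i ∈ range k, (2 * k + 4 * u + 3).choose (2 * u + 2 + i)) with hE
  have h1 : ((s : ZMod p)) ^ 2 = ((E : ℕ) : ZMod p) ^ 2 := by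
    rw [hE]
    push_cast at hcast ⊢
    rw [← hcast, ← hs]
    push_cast
    rfl
  have h2 : legendreSym p s = chi p E := by
    rcases sq_eq_sq_iff_eq_or_eq_neg.1 h1 with h3 | h3
    · rw [chi, legendreSym, legendreSym, Int.cast_natCast, h3]
    · have h4 : ((s : ℤ) : ZMod p) = ((-1 * (E : ℤ) : ℤ) : ZMod p) := by
        rw [h3]
        push_cast
        ring
      have h5 : legendreSym p s = legendreSym p (-1 * (E : ℤ)) := by
        rw [legendreSym, legendreSym, h4]
      rw [h5, legendreSym.mul, chi_neg_one p h hp, one_mul]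
      rfl
  have hR : (∏ l ∈ range (u + 1), chi p (2 * l + 1)) * (∏ l ∈ range (u + 1), chi p (2 * l + 1)) =
      1 := by
    rw [← prod_mul_distrib]
    apply prod_eq_one
    intro l hl
    rw [mem_range] at hl
    exact chi_mul_self p _ (cast_ne_zero_of_lt p _ (by omega) (by omega))
  have hodd : (∏ l ∈ range (u + 1), chi p (2 * l + 1)) *
      (∏ l ∈ range k, chi p (2 * (u + 1 + l) + 1)) * (chi p 2 ^ h * chi p h.factorial) =
        chi p (2 * h).factorial := by
    rw [← prod_range_add (fun l => chi p (2 * l + 1)), ← chi_pow, ← chi_mul, ← chi_prod,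
      ← chi_mul, show u + 1 + k = h by omega, odd_prod]
  have hc2 := chi_mul_self p 2 (by exact_mod_cast two_ne_zero' p (2 * h) (by omega) (by omega))
  have hc2h : chi p 2 ^ h * chi p 2 ^ h = 1 := by rw [← mul_pow, hc2, one_pow]
  have hhf := chi_mul_self p h.factorial (factorial_ne_zero p h (by omega))
  rw [chi_two_mul_factorial p h hp (by omega)] at hodd
  have hQ : (∏ l ∈ range k, chi p (2 * (u + 1 + l) + 1)) =
      chi p 2 * (∏ l ∈ range (u + 1), chi p (2 * l + 1)) * chi p 2 ^ h * chi p h.factorial := by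
    calc (∏ l ∈ range k, chi p (2 * (u + 1 + l) + 1)) =
        ((∏ l ∈ range (u + 1), chi p (2 * l + 1)) * (∏ l ∈ range (u + 1), chi p (2 * l + 1))) *
          (∏ l ∈ range k, chi p (2 * (u + 1 + l) + 1)) * (chi p 2 ^ h * chi p 2 ^ h) *
            (chi p h.factorial * chi p h.factorial) := by rw [hR, hc2h, hhf]; ring
      _ = ((∏ l ∈ range (u + 1), chi p (2 * l + 1)) *
      (∏ l ∈ range k, chi p (2 * (u + 1 + l) + 1)) * (chi p 2 ^ h * chi p h.factorial)) *
        (∏ l ∈ range (u + 1), chi p (2 * l + 1)) * chi p 2 ^ h * chi p h.factorial := by ring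
      _ = _ := by rw [hodd]
  rw [h2, hE, chi_mul, chi_mul, chi_mul, chi_pow, chi_pow, hch, hQ,
    chi_two_mul_factorial p h hp (by omega), chi_two_h p h hp (by omega),
    chi_factorial p h hp, show k + u + 2 = h + 1 by omega, pow_succ]
  calc _ = (chi p 2 ^ h * chi p 2 ^ h) * (chi p 2 * chi p 2) * (chi p 2 ^ h *
      chi p (∏ r ∈ range (u + 1), bb (2 * h) (2 * u + 1) r) *
      chi p (2 * k + 4 * u + 3).factorial ^ k * (∏ l ∈ range (u + 1), chi p (2 * l + 1)) *
      (-1) ^ nonres p) := by ring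
    _ = _ := by rw [hc2h, hc2]; ring

end Char

/-! ### Skew-symmetric determinants are squares -/

theorem isSquare_det_of_skew {K : Type*} [Field K] (h2 : (2 : K) ≠ 0) (n : ℕ) :
    ∀ {ι : Type} [Fintype ι] [DecidableEq ι] (A : Matrix ι ι K), Fintype.card ι = n →
      Aᵀ = -A → IsSquare A.det := by
  induction n using Nat.strong_induction_on with
  | _ n ih =>
    intro ι _ _ A hn hA
    have hskew : ∀ i j, A j i = -A i j := fun i j => congrFun (congrFun hA i) j
    have hdiag : ∀ i, A i i = 0 := by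
      intro i
      have h1 := hskew i i
      have h3 : (2 : K) * A i i = 0 := by
        rw [two_mul]
        nth_rw 1 [h1]
        ring
      exact (mul_eq_zero.1 h3).resolve_left h2
    by_cases h0 : A = 0
    · subst h0
      rcases isEmpty_or_nonempty ι with h | h
      · rw [Matrix.det_isEmpty]
        exact IsSquare.one
      · rw [Matrix.det_zero]
        exact IsSquare.zero
    · obtain ⟨i, j, hij⟩ : ∃ i j, A i j ≠ 0 := by
        by_contra hcon
        push Not at hcon
        exact h0 (by ext i j; exact hcon i j)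
      have hne : i ≠ j := by
        rintro rfl
        exact hij (hdiag i)
      let q : ι → Prop := fun x => x = i ∨ x = j
      have hcard : Fintype.card {a // q a} = 2 := by
        rw [Fintype.card_subtype]
        have h1 : (univ.filter fun a => q a) = {i, j} := by
          ext x
          simp [q]
        rw [h1, card_pair hne]
      let e := Fintype.equivFinOfCardEq hcard
      set A11 := A.toBlock q q with hA11
      set B := A.toBlock q (fun a => ¬ q a) with hB
      set C := A.toBlock (fun a => ¬ q a) q with hC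
      set D := A.toBlock (fun a => ¬ q a) (fun a => ¬ q a) with hD
      have hA11t : A11ᵀ = -A11 := by
        ext x y
        exact hskew x y
      have hBt : Bᵀ = -C := by
        ext x y
        exact hskew x y
      have hCt : Cᵀ = -B := by
        ext x y
        exact hskew x y
      have hDt : Dᵀ = -D := by
        ext x y
        exact hskew x y
      set M := Matrix.reindex e e A11 with hM
      have hdetM : A11.det = (M 0 1) * (M 0 1) := by
        rw [← Matrix.det_reindex_self e A11, ← hM, Matrix.det_fin_two]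
        have h1 : M 0 0 = 0 := hdiag _
        have h3 : M 1 1 = 0 := hdiag _
        have h4 : M 1 0 = -M 0 1 := hskew _ _
        rw [h1, h3, h4]
        ring
      have hM01 : M 0 1 ≠ 0 := by
        intro hM0
        have hz : ∀ x y, M x y = 0 := by
          intro x y
          fin_cases x <;> fin_cases y
          · exact hdiag _
          · exact hM0
          · have h4 : M 1 0 = -M 0 1 := hskew _ _
            change M 1 0 = 0
            rw [h4, hM0, neg_zero]
          · exact hdiag _
        apply hij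
        have h1 := hz (e ⟨i, Or.inl rfl⟩) (e ⟨j, Or.inr rfl⟩)
        rw [hM, Matrix.reindex_apply, Matrix.submatrix_apply, Equiv.symm_apply_apply,
          Equiv.symm_apply_apply] at h1
        exact h1
      have hdetne : A11.det ≠ 0 := by
        rw [hdetM]
        exact mul_ne_zero hM01 hM01
      have : Invertible A11 := Matrix.invertibleOfIsUnitDet A11 (isUnit_iff_ne_zero.2 hdetne)
      rw [Matrix.det_toBlock A q, Matrix.det_fromBlocks₁₁]
      refine IsSquare.mul ⟨M 0 1, hdetM⟩ ?_
      have hlt : Fintype.card {a // ¬ q a} < n := by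
        have h1 : Fintype.card {a // ¬ q a} = Fintype.card ι - Fintype.card {a // q a} :=
          Fintype.card_subtype_compl q
        have h3 : Fintype.card {a // q a} ≤ Fintype.card ι := Fintype.card_subtype_le q
        omega
      refine ih _ hlt _ rfl ?_
      rw [Matrix.transpose_sub, Matrix.transpose_mul, Matrix.transpose_mul,
        Matrix.invOf_eq_nonsing_inv, Matrix.transpose_nonsing_inv, hA11t, hDt, hBt, hCt]
      have h5 : (-A11)⁻¹ = -A11⁻¹ := by
        apply Matrix.inv_eq_left_inv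
        rw [neg_mul_neg]
        exact Matrix.nonsing_inv_mul _ (isUnit_iff_ne_zero.2 hdetne)
      rw [h5]
      simp only [Matrix.mul_neg, Matrix.neg_mul, neg_neg, Matrix.mul_assoc]
      abel

theorem exists_sq_of_skew {n : ℕ} (A : Matrix (Fin n) (Fin n) ℤ) (hA : Aᵀ = -A) :
    ∃ s : ℤ, s ^ 2 = A.det := by
  have h1 : IsSquare ((A.det : ℤ) : ℚ) := by
    have h2 : ((A.det : ℤ) : ℚ) = (A.map (Int.castRingHom ℚ)).det := by
      change (Int.castRingHom ℚ) A.det = _
      rw [RingHom.map_det]
      rfl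
    rw [h2]
    refine isSquare_det_of_skew (by norm_num) n _ (Fintype.card_fin n) ?_
    ext i j
    have h3 := congrFun (congrFun hA i) j
    rw [Matrix.transpose_apply, Matrix.neg_apply] at h3
    simp only [Matrix.transpose_apply, Matrix.map_apply, Matrix.neg_apply]
    rw [h3]
    simp
  rw [Rat.isSquare_intCast_iff] at h1
  obtain ⟨s, hs⟩ := h1
  exact ⟨s, by rw [hs, sq]⟩

theorem exists_sqrt (p u n : ℕ) [Fact p.Prime] (hp : p % 4 = 1) :
    ∃ s : ℤ, s ^ 2 = skewDet p (2 * u + 1) n := by
  refine exists_sq_of_skew _ ?_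
  ext i j
  rw [Matrix.transpose_apply, Matrix.neg_apply, Matrix.of_apply, Matrix.of_apply]
  have h1 : ((j : ℤ) + 1) ^ 2 - ((i : ℤ) + 1) ^ 2 =
      (-1) * (((i : ℤ) + 1) ^ 2 - ((j : ℤ) + 1) ^ 2) := by ring
  have h2 : legendreSym p (-1) = 1 := by
    rw [legendreSym.at_neg_one (by omega), ZMod.χ₄_nat_one_mod_four hp]
  rw [h1, legendreSym.mul, h2, mul_pow, Odd.neg_one_pow ⟨u, rfl⟩]
  ring

end Pool.Agent.V11197.SkewLegendre
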