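import Mathlib

set_option autoImplicit false

/-!
Fourier analysis on `M_n(F_q)` and sums of twisted sets.
-/

open Finset Matrix
open scoped Pointwise

namespace Pool.Agent.V11197.TwistedSums

section Basic

/-- all fibres of a surjective homomorphism have the same size -/
theorem card_fiber {A B : Type*} [AddCommGroup A] [AddCommGroup B] [Fintype A] [Fintype B]
    [DecidableEq B] (φ : A →+ B) (hφ : Function.Surjective φ) (b : B) :
    (univ.filter fun a => φ a = b).card = (univ.filter fun a => φ a = 0).card := by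
  obtain ⟨a₀, rfl⟩ := hφ b
  refine card_nbij' (fun a => a - a₀) (fun a => a + a₀) ?_ ?_ ?_ ?_
  · intro a ha
    simp only [coe_filter, mem_univ, true_and, Set.mem_ofPred_eq] at ha ⊢
    rw [map_sub, ha, sub_self]
  · intro a ha
    simp only [coe_filter, mem_univ, true_and, Set.mem_ofPred_eq] at ha ⊢
    rw [map_add, ha, zero_add]
  · intro a _
    simp
  · intro a _
    simp

theorem card_eq {A B : Type*} [AddCommGroup A] [AddCommGroup B] [Fintype A] [Fintype B]
    [DecidableEq B] (φ : A →+ B) (hφ : Function.Surjective φ) :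
    Fintype.card A = Fintype.card B * (univ.filter fun a => φ a = 0).card := by
  have h1 : Fintype.card A = ∑ b : B, (univ.filter fun a => φ a = b).card := by
    rw [← card_univ]
    exact card_eq_sum_card_fiberwise (fun a _ => mem_univ (φ a))
  rw [h1, sum_congr rfl (fun b _ => card_fiber φ hφ b), sum_const, card_univ, smul_eq_mul]

theorem sum_comp {A B : Type*} [AddCommGroup A] [AddCommGroup B] [Fintype A] [Fintype B]
    [DecidableEq B] (φ : A →+ B) (hφ : Function.Surjective φ) (f : B → ℝ) :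
    (Fintype.card B : ℝ) * ∑ a, f (φ a) = (Fintype.card A : ℝ) * ∑ b, f b := by
  have h2 : ∑ a, f (φ a) = ((univ.filter fun a => φ a = 0).card : ℝ) * ∑ b, f b := by
    rw [← sum_fiberwise (s := univ) (g := fun a => φ a), mul_sum]
    refine sum_congr rfl fun b _ => ?_
    rw [← card_fiber φ hφ b, sum_congr rfl (g := fun _ => f b), sum_const, nsmul_eq_mul]
    intro a ha
    rw [(mem_filter.1 ha).2]
  rw [h2, card_eq φ hφ]
  push_cast
  ring

end Basic

section Fourier

variable {F : Type*} [Field F] [Fintype F] [DecidableEq F]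

omit [DecidableEq F] in
theorem exists_char : ∃ ψ : AddChar F ℂ, ψ ≠ 0 := by
  obtain ⟨ψ, hψ⟩ := (AddChar.exists_apply_ne_zero (α := F) (a := 1)).2 one_ne_zero
  refine ⟨ψ, ?_⟩
  rintro rfl
  exact hψ (AddChar.zero_apply _)

/-- the homomorphism `w ↦ tr (w x)` -/
def trHom {m n : ℕ} (x : Matrix (Fin n) (Fin m) F) : Matrix (Fin m) (Fin n) F →+ F where
  toFun w := trace (w * x)
  map_zero' := by simp
  map_add' a b := by simp [Matrix.add_mul]

theorem ortho (ψ : AddChar F ℂ) (hψ : ψ ≠ 0) {m n : ℕ} (x : Matrix (Fin n) (Fin m) F) :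
    ∑ w : Matrix (Fin m) (Fin n) F, ψ (trace (w * x)) =
      if x = 0 then (Fintype.card (Matrix (Fin m) (Fin n) F) : ℂ) else 0 := by
  classical
  split_ifs with hx
  · subst hx
    simp
  · have h1 : ψ.compAddMonoidHom (trHom x) ≠ 0 := by
      intro h
      obtain ⟨t, ht⟩ := AddChar.ne_zero_iff.1 hψ
      obtain ⟨i, j, hij⟩ : ∃ i j, x i j ≠ 0 := by
        by_contra hcon
        push Not at hcon
        exact hx (by ext i j; exact hcon i j)
      apply ht
      have h2 := DFunLike.congr_fun h (Matrix.single j i (t / x i j))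
      rw [AddChar.compAddMonoidHom_apply, AddChar.zero_apply] at h2
      have h3 : trHom x (Matrix.single j i (t / x i j)) = t := by
        change trace (Matrix.single j i (t / x i j) * x) = t
        rw [Matrix.trace_single_mul, smul_eq_mul, div_mul_cancel₀ _ hij]
      rw [h3] at h2
      exact h2
    exact AddChar.sum_eq_zero_iff_ne_zero.2 h1

/-- the Fourier transform of a set of matrices, at `ξ` -/
noncomputable def ft (ψ : AddChar F ℂ) {n : ℕ} (X : Finset (Matrix (Fin n) (Fin n) F))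
    (ξ : Matrix (Fin n) (Fin n) F) : ℂ := ∑ x ∈ X, ψ (trace (ξ * x))

theorem parseval (ψ : AddChar F ℂ) (hψ : ψ ≠ 0) {n r : ℕ}
    (X : Finset (Matrix (Fin n) (Fin n) F)) (u : Matrix (Fin n) (Fin r) F) :
    ∑ w : Matrix (Fin r) (Fin n) F, ‖ft ψ X (u * w)‖ ^ 2 =
      (Fintype.card (Matrix (Fin r) (Fin n) F) : ℝ) *
        ((X ×ˢ X).filter fun p => (p.1 - p.2) * u = 0).card := by
  have h1 : ((∑ w : Matrix (Fin r) (Fin n) F, ‖ft ψ X (u * w)‖ ^ 2 : ℝ) : ℂ) =
      ∑ w : Matrix (Fin r) (Fin n) F, ∑ p ∈ X ×ˢ X, ψ (trace (w * ((p.1 - p.2) * u))) := by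
    push_cast
    refine sum_congr rfl fun w _ => ?_
    rw [← Complex.mul_conj', ft, map_sum, sum_mul_sum, ← sum_product']
    refine sum_congr rfl fun p _ => ?_
    rw [← AddChar.map_neg_eq_conj, ← AddChar.map_add_eq_mul]
    congr 1
    rw [← sub_eq_add_neg, ← Matrix.trace_sub, ← Matrix.mul_sub, Matrix.mul_assoc,
      Matrix.trace_mul_comm, Matrix.mul_assoc]
  rw [sum_comm] at h1
  simp_rw [ortho ψ hψ] at h1
  rw [← sum_filter, sum_const, nsmul_eq_mul, mul_comm] at h1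
  exact_mod_cast h1

end Fourier

section Rank

variable {F : Type*} [Field F]

/-- rank factorisation -/
theorem exists_factor {n : ℕ} (z : Matrix (Fin n) (Fin n) F) :
    ∃ (p : Matrix (Fin n) (Fin z.rank) F) (t : Matrix (Fin z.rank) (Fin n) F)
      (p' : Matrix (Fin z.rank) (Fin n) F) (t' : Matrix (Fin n) (Fin z.rank) F),
      z = p * t ∧ p' * p = 1 ∧ t * t' = 1 := by
  set f := z.mulVecLin with hf
  have hfin : Module.finrank F (LinearMap.range f) = z.rank := rfl
  let e : LinearMap.range f ≃ₗ[F] (Fin z.rank → F) :=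
    LinearEquiv.ofFinrankEq _ _ (by rw [hfin]; simp)
  let P : (Fin z.rank → F) →ₗ[F] (Fin n → F) := (LinearMap.range f).subtype ∘ₗ e.symm.toLinearMap
  let T : (Fin n → F) →ₗ[F] (Fin z.rank → F) := e.toLinearMap ∘ₗ f.rangeRestrict
  have hP : LinearMap.ker P = ⊥ := by
    rw [LinearMap.ker_eq_bot]
    exact (Submodule.injective_subtype _).comp e.symm.injective
  have hT : LinearMap.range T = ⊤ := by
    rw [LinearMap.range_eq_top]
    exact e.surjective.comp (LinearMap.surjective_rangeRestrict f)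
  obtain ⟨P', hP'⟩ := P.exists_leftInverse_of_injective hP
  obtain ⟨T', hT'⟩ := T.exists_rightInverse_of_surjective hT
  refine ⟨LinearMap.toMatrix' P, LinearMap.toMatrix' T, LinearMap.toMatrix' P',
    LinearMap.toMatrix' T', ?_, ?_, ?_⟩
  · rw [← LinearMap.toMatrix'_comp]
    have h1 : P ∘ₗ T = f := by
      ext v
      simp [P, T]
    rw [h1, hf, ← Matrix.toLin'_apply', LinearMap.toMatrix'_toLin']
  · rw [← LinearMap.toMatrix'_comp, hP', LinearMap.toMatrix'_id]
  · rw [← LinearMap.toMatrix'_comp, hT', LinearMap.toMatrix'_id]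

/-- matrices of rank at most `k` factor through `F^k` -/
theorem exists_factor_le {n k : ℕ} (z : Matrix (Fin n) (Fin n) F) (hz : z.rank ≤ k) :
    ∃ (p : Matrix (Fin n) (Fin k) F) (t : Matrix (Fin k) (Fin n) F), z = p * t := by
  obtain ⟨p, t, _, _, h, _, _⟩ := exists_factor z
  obtain ⟨d, rfl⟩ := Nat.exists_eq_add_of_le hz
  refine ⟨Matrix.of fun i j => if h : (j : ℕ) < z.rank then p i ⟨j, h⟩ else 0,
    Matrix.of fun j i => if h : (j : ℕ) < z.rank then t ⟨j, h⟩ i else 0, ?_⟩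
  nth_rw 1 [h]
  ext i l
  rw [Matrix.mul_apply, Matrix.mul_apply, Fin.sum_univ_add]
  simp

theorem card_mat {F : Type*} [Fintype F] (a b : ℕ) [Fintype (Matrix (Fin a) (Fin b) F)] :
    Fintype.card (Matrix (Fin a) (Fin b) F) = Fintype.card F ^ (a * b) := by
  classical
  rw [Fintype.card_congr (Matrix.of.symm : Matrix (Fin a) (Fin b) F ≃ (Fin a → Fin b → F))]
  simp [pow_mul']

theorem card_rank_le [Fintype F] [DecidableEq F] (n k : ℕ) :
    (univ.filter fun z : Matrix (Fin n) (Fin n) F => z.rank ≤ k).card ≤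
      Fintype.card F ^ (2 * n * k) := by
  classical
  have h1 : (univ.filter fun z : Matrix (Fin n) (Fin n) F => z.rank ≤ k) ⊆
      (univ : Finset (Matrix (Fin n) (Fin k) F × Matrix (Fin k) (Fin n) F)).image
        fun a => a.1 * a.2 := by
    intro z hz
    obtain ⟨p, t, h⟩ := exists_factor_le z (mem_filter.1 hz).2
    exact mem_image.2 ⟨(p, t), mem_univ _, h.symm⟩
  refine (card_le_card h1).trans (card_image_le.trans ?_)
  rw [card_univ, Fintype.card_prod, card_mat, card_mat, ← pow_add]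
  apply le_of_eq
  congr 1
  ring

end Rank

section Average

variable {F : Type*} [Field F] [Fintype F] [DecidableEq F]

/-- left multiplication as a homomorphism -/
def mulL {r n : ℕ} (w : Matrix (Fin r) (Fin n) F) :
    Matrix (Fin n) (Fin n) F →+ Matrix (Fin r) (Fin n) F where
  toFun a := w * a
  map_zero' := by simp
  map_add' a b := by simp [Matrix.mul_add]

/-- two-sided multiplication as a homomorphism -/
def mulLR {s r n : ℕ} (t : Matrix (Fin s) (Fin n) F) (u : Matrix (Fin n) (Fin r) F) :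
    Matrix (Fin n) (Fin n) F →+ Matrix (Fin s) (Fin r) F where
  toFun b := t * b * u
  map_zero' := by simp
  map_add' a b := by simp [Matrix.mul_add, Matrix.add_mul]

theorem sum_a (ψ : AddChar F ℂ) (hψ : ψ ≠ 0) {n r : ℕ}
    (X : Finset (Matrix (Fin n) (Fin n) F)) (u : Matrix (Fin n) (Fin r) F)
    (w : Matrix (Fin r) (Fin n) F) (w' : Matrix (Fin n) (Fin r) F) (hw : w * w' = 1) :
    ∑ a : Matrix (Fin n) (Fin n) F, ‖ft ψ X (u * (w * a))‖ ^ 2 =
      (Fintype.card F : ℝ) ^ (n * n) *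
        ((X ×ˢ X).filter fun p => (p.1 - p.2) * u = 0).card := by
  have hsurj : Function.Surjective (mulL w) := by
    intro b
    refine ⟨w' * b, ?_⟩
    change w * (w' * b) = b
    rw [← Matrix.mul_assoc, hw, Matrix.one_mul]
  have h1 := sum_comp (mulL w) hsurj (fun b => ‖ft ψ X (u * b)‖ ^ 2)
  rw [parseval ψ hψ X u] at h1
  have hq : (0 : ℝ) < Fintype.card (Matrix (Fin r) (Fin n) F) := by
    exact_mod_cast Fintype.card_pos
  have h2 : (Fintype.card (Matrix (Fin r) (Fin n) F) : ℝ) *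
      ∑ a : Matrix (Fin n) (Fin n) F, ‖ft ψ X (u * (w * a))‖ ^ 2 =
      (Fintype.card (Matrix (Fin r) (Fin n) F) : ℝ) *
      ((Fintype.card (Matrix (Fin n) (Fin n) F) : ℝ) *
        ((X ×ˢ X).filter fun p => (p.1 - p.2) * u = 0).card) := by
    rw [mul_left_comm, ← h1]
    rfl
  have h3 := mul_left_cancel₀ hq.ne' h2
  rw [h3, card_mat]
  push_cast
  rfl

theorem card_b {n r : ℕ} (z : Matrix (Fin n) (Fin n) F) (u : Matrix (Fin n) (Fin r) F)
    (u' : Matrix (Fin r) (Fin n) F) (hu : u' * u = 1) :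
    ((univ.filter fun b : Matrix (Fin n) (Fin n) F => z * (b * u) = 0).card : ℝ) =
      (Fintype.card F : ℝ) ^ (n * n) * ((Fintype.card F : ℝ) ^ (r * z.rank))⁻¹ := by
  obtain ⟨p, t, p', t', h, hp, ht⟩ := exists_factor z
  have key : ∀ m : Matrix (Fin n) (Fin r) F, z * m = p * (t * m) := by
    intro m
    rw [← Matrix.mul_assoc, ← h]
  have h1 : (univ.filter fun b : Matrix (Fin n) (Fin n) F => z * (b * u) = 0) =
      univ.filter fun b : Matrix (Fin n) (Fin n) F => mulLR t u b = 0 := by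
    ext b
    rw [mem_filter, mem_filter]
    refine and_congr_right fun _ => ?_
    change _ ↔ t * b * u = 0
    constructor
    · intro h2
      have h3 : p * (t * b * u) = 0 := by
        rw [← h2, key]
        simp only [Matrix.mul_assoc]
      calc t * b * u = p' * p * (t * b * u) := by rw [hp, Matrix.one_mul]
        _ = p' * (p * (t * b * u)) := by rw [Matrix.mul_assoc]
        _ = 0 := by rw [h3, Matrix.mul_zero]
    · intro h2
      have h3 : z * (b * u) = p * (t * b * u) := by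
        rw [key]
        simp only [Matrix.mul_assoc]
      rw [h3, h2, Matrix.mul_zero]
  have hsurj : Function.Surjective (mulLR t u) := by
    intro m
    refine ⟨t' * m * u', ?_⟩
    change t * (t' * m * u') * u = m
    calc t * (t' * m * u') * u = (t * t') * m * (u' * u) := by simp only [Matrix.mul_assoc]
      _ = m := by rw [ht, hu, Matrix.one_mul, Matrix.mul_one]
  have h2 := card_eq (mulLR t u) hsurj
  rw [card_mat, card_mat] at h2
  have hq : (0 : ℝ) < Fintype.card F := by exact_mod_cast Fintype.card_pos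
  rw [h1]
  have h3 : ((Fintype.card F : ℝ)) ^ (n * n) = (Fintype.card F : ℝ) ^ (z.rank * r) *
      ((univ.filter fun b : Matrix (Fin n) (Fin n) F => mulLR t u b = 0).card : ℝ) := by
    exact_mod_cast h2
  rw [h3, mul_comm z.rank r]
  field_simp

theorem sum_ab (ψ : AddChar F ℂ) (hψ : ψ ≠ 0) {n : ℕ}
    (X : Finset (Matrix (Fin n) (Fin n) F)) (ξ : Matrix (Fin n) (Fin n) F) :
    ∑ b : Matrix (Fin n) (Fin n) F, ∑ a : Matrix (Fin n) (Fin n) F, ‖ft ψ X (b * ξ * a)‖ ^ 2 =
      ((Fintype.card F : ℝ) ^ (n * n)) ^ 2 *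
        ∑ p ∈ X ×ˢ X, ((Fintype.card F : ℝ) ^ (ξ.rank * (p.1 - p.2).rank))⁻¹ := by
  obtain ⟨u, w, u', w', h, hu, hw⟩ := exists_factor ξ
  have h1 : ∀ b : Matrix (Fin n) (Fin n) F,
      ∑ a : Matrix (Fin n) (Fin n) F, ‖ft ψ X (b * ξ * a)‖ ^ 2 =
      (Fintype.card F : ℝ) ^ (n * n) *
        ((X ×ˢ X).filter fun p => (p.1 - p.2) * (b * u) = 0).card := by
    intro b
    rw [← sum_a ψ hψ X (b * u) w w' hw]
    refine sum_congr rfl fun a _ => ?_
    have h2 : b * ξ * a = b * u * (w * a) := by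
      nth_rw 1 [h]
      simp only [Matrix.mul_assoc]
    rw [h2]
  rw [sum_congr rfl (fun b _ => h1 b), ← mul_sum, sq, mul_assoc]
  congr 1
  have h3 : ∀ b : Matrix (Fin n) (Fin n) F,
      (((X ×ˢ X).filter fun p => (p.1 - p.2) * (b * u) = 0).card : ℝ) =
        ∑ p ∈ X ×ˢ X, if (p.1 - p.2) * (b * u) = 0 then (1 : ℝ) else 0 := by
    intro b
    rw [card_filter]
    push_cast
    rfl
  rw [sum_congr rfl (fun b _ => h3 b), sum_comm, mul_sum]
  refine sum_congr rfl fun p _ => ?_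
  rw [← card_b (p.1 - p.2) u u' hu, card_filter]
  push_cast
  rfl

end Average

section GLcard

variable {F : Type*} [Field F] [Fintype F] [DecidableEq F]

theorem prod_bound (q : ℝ) (hq : 2 ≤ q) (n : ℕ) (hn : 1 ≤ n) :
    (1 / 4 + (1 / 2) ^ (n + 1)) * q ^ (n * n) ≤ ∏ i ∈ range n, (q ^ n - q ^ i) := by
  induction n, hn using Nat.le_induction with
  | base =>
    norm_num
    linarith
  | succ n hn ih =>
    rw [prod_range_succ']
    have h1 : ∏ k ∈ range n, (q ^ (n + 1) - q ^ (k + 1)) =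
        q ^ n * ∏ i ∈ range n, (q ^ n - q ^ i) := by
      have : ∀ k ∈ range n, q ^ (n + 1) - q ^ (k + 1) = q * (q ^ n - q ^ k) := by
        intro k _
        ring
      rw [prod_congr rfl this, prod_mul_distrib, prod_const, card_range]
    rw [h1, pow_zero]
    have hq0 : 0 < q := by linarith
    have h2 : (2 : ℝ) ^ (n + 1) ≤ q ^ (n + 1) := pow_le_pow_left₀ (by norm_num) hq _
    have h3 : (1 / 2 : ℝ) ^ (n + 1) ≤ 1 / 4 := by
      calc (1 / 2 : ℝ) ^ (n + 1) ≤ (1 / 2) ^ 2 :=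
            pow_le_pow_of_le_one (by norm_num) (by norm_num) (by omega)
        _ = 1 / 4 := by norm_num
    have h4 : (1 / 2 : ℝ) ^ (n + 1) * 2 ^ (n + 1) = 1 := by
      rw [← mul_pow]; norm_num
    have h5 : (1 : ℝ) ≤ (1 / 2) ^ (n + 1) * q ^ (n + 1) :=
      h4.symm.le.trans (mul_le_mul_of_nonneg_left h2 (by positivity))
    have h6 : (1 / 4 + (1 / 2) ^ (n + 1 + 1)) * q ^ (n + 1) ≤
        (q ^ (n + 1) - 1) * (1 / 4 + (1 / 2) ^ (n + 1)) := by
      have : (1 / 2 : ℝ) ^ (n + 1 + 1) = (1 / 2) ^ (n + 1) / 2 := by ring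
      rw [this]
      nlinarith
    have h7 : (0 : ℝ) ≤ q ^ (n + 1) - 1 := by
      have := one_le_pow₀ (n := n + 1) (by linarith : (1 : ℝ) ≤ q)
      linarith
    calc (1 / 4 + (1 / 2) ^ (n + 1 + 1)) * q ^ ((n + 1) * (n + 1))
        = ((1 / 4 + (1 / 2) ^ (n + 1 + 1)) * q ^ (n + 1)) * (q ^ n * q ^ (n * n)) := by ring
      _ ≤ ((q ^ (n + 1) - 1) * (1 / 4 + (1 / 2) ^ (n + 1))) * (q ^ n * q ^ (n * n)) :=
          mul_le_mul_of_nonneg_right h6 (by positivity)
      _ = (q ^ (n + 1) - 1) * q ^ n * ((1 / 4 + (1 / 2) ^ (n + 1)) * q ^ (n * n)) := by ring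
      _ ≤ (q ^ (n + 1) - 1) * q ^ n * ∏ i ∈ range n, (q ^ n - q ^ i) :=
          mul_le_mul_of_nonneg_left ih (by positivity)
      _ = _ := by ring

omit [DecidableEq F] in
theorem card_GL (n : ℕ) (hn : 1 ≤ n) :
    (Fintype.card F : ℝ) ^ (n * n) ≤ 4 * (Nat.card (GL (Fin n) F) : ℝ) := by
  have hq : 2 ≤ Fintype.card F := Fintype.one_lt_card
  have hq' : (2 : ℝ) ≤ Fintype.card F := by exact_mod_cast hq
  have h1 : (Nat.card (GL (Fin n) F) : ℝ) =
      ∏ i ∈ range n, ((Fintype.card F : ℝ) ^ n - (Fintype.card F : ℝ) ^ i) := by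
    rw [Matrix.card_GL_field, Fin.prod_univ_eq_prod_range
      (fun i => Fintype.card F ^ n - Fintype.card F ^ i) n]
    push_cast
    refine prod_congr rfl fun i hi => ?_
    rw [Nat.cast_sub (Nat.pow_le_pow_right (by omega) (mem_range.1 hi).le)]
    push_cast
    rfl
  have h2 := prod_bound (Fintype.card F : ℝ) hq' n hn
  rw [h1]
  have h3 : (0 : ℝ) ≤ (1 / 2) ^ (n + 1) * (Fintype.card F : ℝ) ^ (n * n) := by positivity
  linarith

end GLcard

section Large

variable {F : Type*} [Field F] [Fintype F] [DecidableEq F]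

omit [Field F] [DecidableEq F] in
theorem delta_pow (hQ : (0 : ℝ) < Fintype.card F) (c : ℝ) (n j : ℕ) :
    ((Fintype.card F : ℝ) ^ (-(c * n) / 16)) ^ j =
      (Fintype.card F : ℝ) ^ (-(c * n) / 16 * j) := by
  rw [Real.rpow_mul hQ.le, Real.rpow_natCast]

theorem T_bound {n : ℕ} (X : Finset (Matrix (Fin n) (Fin n) F)) (r : ℕ) (hr : r ≤ n) (c : ℝ)
    (hc : 0 < c) (hX : (Fintype.card F : ℝ) ^ (c * (n : ℝ) ^ 2) ≤ X.card) :
    ∑ p ∈ X ×ˢ X, ((Fintype.card F : ℝ) ^ (r * (p.1 - p.2).rank))⁻¹ ≤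
      (X.card : ℝ) ^ 2 * (2 * ((Fintype.card F : ℝ) ^ (-(c * n) / 16)) ^ (4 * r)) := by
  have hq : 2 ≤ Fintype.card F := Fintype.one_lt_card
  have hQ : (2 : ℝ) ≤ Fintype.card F := by exact_mod_cast hq
  set Q : ℝ := (Fintype.card F : ℝ) with hQdef
  have hQ0 : 0 < Q := by linarith
  have hQ1 : 1 ≤ Q := by linarith
  set δ : ℝ := Q ^ (-(c * n) / 16) with hδ
  have hδ0 : 0 < δ := Real.rpow_pos_of_pos hQ0 _
  have hδ1 : δ ≤ 1 := by
    rw [hδ]
    apply Real.rpow_le_one_of_one_le_of_nonpos hQ1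
    have : 0 ≤ c * n := by positivity
    linarith
  set k := ⌊c * n / 4⌋₊ with hk
  have hk1 : (k : ℝ) ≤ c * n / 4 := Nat.floor_le (by positivity)
  have hk2 : c * n / 4 < k + 1 := Nat.lt_floor_add_one _
  have hterm : ∀ p ∈ X ×ˢ X, (Q ^ (r * (p.1 - p.2).rank))⁻¹ ≤
      (if (p.1 - p.2).rank ≤ k then (1 : ℝ) else 0) + δ ^ (4 * r) := by
    intro p _
    split_ifs with h
    · have h1 : (Q ^ (r * (p.1 - p.2).rank))⁻¹ ≤ 1 :=
        inv_le_one_of_one_le₀ (one_le_pow₀ hQ1)
      have h2 : 0 < δ ^ (4 * r) := by positivity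
      linarith
    · rw [zero_add, hδ, delta_pow hQ0, ← Real.rpow_natCast, ← Real.rpow_neg hQ0.le]
      apply Real.rpow_le_rpow_of_exponent_le hQ1
      push_cast
      have h1 : (k : ℝ) + 1 ≤ (p.1 - p.2).rank := by
        have : k + 1 ≤ (p.1 - p.2).rank := by omega
        exact_mod_cast this
      have h2 : (r : ℝ) * (c * n / 4) ≤ (r : ℝ) * (p.1 - p.2).rank :=
        mul_le_mul_of_nonneg_left (by linarith) (Nat.cast_nonneg r)
      linarith
  have hcount : ((X ×ˢ X).filter fun p => (p.1 - p.2).rank ≤ k).card ≤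
      X.card * Fintype.card F ^ (2 * n * k) := by
    refine le_trans ?_ (Nat.mul_le_mul_left X.card (card_rank_le (F := F) n k))
    rw [← card_product]
    refine card_le_card_of_injOn (fun p => (p.1, p.1 - p.2)) ?_ ?_
    · intro p hp
      rw [mem_coe, mem_filter, mem_product] at hp
      rw [mem_coe, mem_product, mem_filter]
      exact ⟨hp.1.1, mem_univ _, hp.2⟩
    · intro p _ p' _ h
      rw [Prod.mk.injEq] at h
      ext1
      · exact h.1
      · have := h.2
        rw [h.1] at this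
        exact sub_right_injective this
  have hpow : Q ^ (2 * n * k) ≤ (X.card : ℝ) * δ ^ (4 * r) := by
    have h1 : Q ^ (2 * n * k) ≤ Q ^ (c * (n : ℝ) ^ 2) * δ ^ (8 * n) := by
      rw [hδ, delta_pow hQ0, ← Real.rpow_natCast, ← Real.rpow_add hQ0]
      apply Real.rpow_le_rpow_of_exponent_le hQ1
      push_cast
      have : (2 * n : ℝ) * k ≤ 2 * n * (c * n / 4) :=
        mul_le_mul_of_nonneg_left hk1 (by positivity)
      nlinarith
    have h2 : δ ^ (8 * n) ≤ δ ^ (4 * r) := pow_le_pow_of_le_one hδ0.le hδ1 (by omega)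
    calc Q ^ (2 * n * k) ≤ Q ^ (c * (n : ℝ) ^ 2) * δ ^ (8 * n) := h1
      _ ≤ X.card * δ ^ (4 * r) :=
        mul_le_mul hX h2 (by positivity) (Nat.cast_nonneg _)
  calc ∑ p ∈ X ×ˢ X, (Q ^ (r * (p.1 - p.2).rank))⁻¹
      ≤ ∑ p ∈ X ×ˢ X, ((if (p.1 - p.2).rank ≤ k then (1 : ℝ) else 0) + δ ^ (4 * r)) :=
        sum_le_sum hterm
    _ = ((X ×ˢ X).filter fun p => (p.1 - p.2).rank ≤ k).card +
        (X.card : ℝ) ^ 2 * δ ^ (4 * r) := by
        rw [sum_add_distrib, sum_const, card_product, nsmul_eq_mul, card_filter]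
        push_cast
        ring
    _ ≤ X.card * Q ^ (2 * n * k) + (X.card : ℝ) ^ 2 * δ ^ (4 * r) := by
        have : (((X ×ˢ X).filter fun p => (p.1 - p.2).rank ≤ k).card : ℝ) ≤
            X.card * Q ^ (2 * n * k) := by
          rw [hQdef]
          exact_mod_cast hcount
        linarith
    _ ≤ X.card * (X.card * δ ^ (4 * r)) + (X.card : ℝ) ^ 2 * δ ^ (4 * r) := by
        have := mul_le_mul_of_nonneg_left hpow (Nat.cast_nonneg (α := ℝ) X.card)
        linarith
    _ = _ := by ring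

omit [Fintype F] [DecidableEq F] in
theorem sum_units_le {n : ℕ} [Fintype (Matrix (Fin n) (Fin n) F)] [Fintype (GL (Fin n) F)]
    (f : Matrix (Fin n) (Fin n) F → ℝ) (hf : ∀ m, 0 ≤ f m) :
    ∑ g : GL (Fin n) F, f (g : Matrix (Fin n) (Fin n) F) ≤ ∑ m, f m := by
  have h1 : ∑ g : GL (Fin n) F, f (g : Matrix (Fin n) (Fin n) F) =
      ∑ m ∈ univ.map ⟨fun g : GL (Fin n) F => (g : Matrix (Fin n) (Fin n) F),
        Units.val_injective⟩, f m := by
    rw [sum_map]
    rfl
  rw [h1]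
  exact sum_le_univ_sum_of_nonneg hf

omit [Fintype F] [DecidableEq F] in
theorem sum_units_le₂ {n : ℕ} [Fintype (Matrix (Fin n) (Fin n) F)] [Fintype (GL (Fin n) F)]
    (f : Matrix (Fin n) (Fin n) F → Matrix (Fin n) (Fin n) F → ℝ) (hf : ∀ a b, 0 ≤ f a b) :
    ∑ p : GL (Fin n) F × GL (Fin n) F, f p.2 p.1 ≤ ∑ b, ∑ a, f b a := by
  have h1 : ∑ p : GL (Fin n) F × GL (Fin n) F, f p.2 p.1 =
      ∑ h : GL (Fin n) F, ∑ g : GL (Fin n) F, f h g := by
    rw [← univ_product_univ, sum_product_right]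
  rw [h1]
  refine le_trans (sum_le_sum fun h _ => sum_units_le (f h) (hf h)) ?_
  exact sum_units_le (fun b => ∑ a, f b a) fun b => sum_nonneg fun a _ => hf b a

omit [Fintype F] [DecidableEq F] in
theorem rank_pos {n : ℕ} (ξ : Matrix (Fin n) (Fin n) F) (hξ : ξ ≠ 0) : 1 ≤ ξ.rank := by
  rw [Nat.one_le_iff_ne_zero]
  intro h
  obtain ⟨p, t, h1⟩ := exists_factor_le (k := 0) ξ h.le
  apply hξ
  rw [h1]
  ext i j
  simp [Matrix.mul_apply]

theorem sq_bound (ψ : AddChar F ℂ) (hψ : ψ ≠ 0) {n : ℕ} [Fintype (GL (Fin n) F)]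
    (X : Finset (Matrix (Fin n) (Fin n) F)) (ξ : Matrix (Fin n) (Fin n) F) (c : ℝ)
    (hc : 0 < c) (hX : (Fintype.card F : ℝ) ^ (c * (n : ℝ) ^ 2) ≤ X.card) :
    ∑ p : GL (Fin n) F × GL (Fin n) F,
      ‖ft ψ X ((p.2 : Matrix (Fin n) (Fin n) F) * ξ * (p.1 : Matrix (Fin n) (Fin n) F))‖ ^ 2 ≤
      ((Fintype.card F : ℝ) ^ (n * n)) ^ 2 * ((X.card : ℝ) ^ 2 *
        (2 * ((Fintype.card F : ℝ) ^ (-(c * n) / 16)) ^ (4 * ξ.rank))) := by
  have hrank' : ξ.rank ≤ n := by
    simpa using Matrix.rank_le_card_height ξ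
  refine le_trans (sum_units_le₂ (fun b a => ‖ft ψ X (b * ξ * a)‖ ^ 2)
    (fun _ _ => sq_nonneg _)) ?_
  rw [sum_ab ψ hψ X ξ]
  exact mul_le_mul_of_nonneg_left (T_bound X ξ.rank hrank' c hc hX) (by positivity)

theorem numeric (G Q δ x S S2 : ℝ) (r : ℕ) (hr : 1 ≤ r) (hG : 0 < G) (hδ0 : 0 < δ)
    (hδ : 6 * δ ≤ 1) (hx : 0 ≤ x) (hQ0 : 0 ≤ Q) (hQG : Q ≤ 4 * G)
    (hS2 : S2 ≤ Q ^ 2 * (x ^ 2 * (2 * δ ^ (4 * r)))) (hcs : S ^ 2 ≤ G * G * S2) :
    S ≤ G * G * (x * δ ^ r) := by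
  refine (abs_le_of_sq_le_sq' ?_ (by positivity)).2
  refine hcs.trans ?_
  have hδ4 : 2 * (16 * δ ^ (4 * r)) ≤ (δ ^ r) ^ 2 := by
    have e1 : δ ^ (4 * r) = (δ ^ r) ^ 2 * (δ ^ r) ^ 2 := by ring
    have e2 : δ ^ r ≤ δ := by
      calc δ ^ r ≤ δ ^ 1 := pow_le_pow_of_le_one hδ0.le (by linarith) hr
        _ = δ := pow_one δ
    have e3 : (δ ^ r) ^ 2 ≤ (1 / 6) ^ 2 :=
      pow_le_pow_left₀ (by positivity) (e2.trans (by linarith)) 2
    rw [e1]
    nlinarith [sq_nonneg (δ ^ r)]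
  have hQ2 : Q ^ 2 ≤ (4 * G) ^ 2 := pow_le_pow_left₀ hQ0 hQG 2
  calc G * G * S2 ≤ G * G * (Q ^ 2 * (x ^ 2 * (2 * δ ^ (4 * r)))) :=
        mul_le_mul_of_nonneg_left hS2 (by positivity)
    _ ≤ G * G * ((4 * G) ^ 2 * (x ^ 2 * (2 * δ ^ (4 * r)))) := by
        apply mul_le_mul_of_nonneg_left _ (by positivity)
        exact mul_le_mul_of_nonneg_right hQ2 (by positivity)
    _ = (G * G) ^ 2 * x ^ 2 * (2 * (16 * δ ^ (4 * r))) := by ring
    _ ≤ (G * G) ^ 2 * x ^ 2 * (δ ^ r) ^ 2 := mul_le_mul_of_nonneg_left hδ4 (by positivity)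
    _ = _ := by ring

/-- the averaged bound over `GL × GL` -/
theorem avg_bound (ψ : AddChar F ℂ) (hψ : ψ ≠ 0) {n : ℕ} (hn : 1 ≤ n) [Fintype (GL (Fin n) F)]
    (X : Finset (Matrix (Fin n) (Fin n) F)) (ξ : Matrix (Fin n) (Fin n) F) (hξ : ξ ≠ 0) (c : ℝ)
    (hc : 0 < c) (hX : (Fintype.card F : ℝ) ^ (c * (n : ℝ) ^ 2) ≤ X.card)
    (hδ : 6 * (Fintype.card F : ℝ) ^ (-(c * n) / 16) ≤ 1) :
    ∑ p : GL (Fin n) F × GL (Fin n) F,
      ‖ft ψ X ((p.2 : Matrix (Fin n) (Fin n) F) * ξ * (p.1 : Matrix (Fin n) (Fin n) F))‖ ≤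
      (Fintype.card (GL (Fin n) F) : ℝ) * (Fintype.card (GL (Fin n) F) : ℝ) *
        (X.card * ((Fintype.card F : ℝ) ^ (-(c * n) / 16)) ^ ξ.rank) := by
  have hq : 2 ≤ Fintype.card F := Fintype.one_lt_card
  have hQ : (2 : ℝ) ≤ (Fintype.card F : ℝ) := by exact_mod_cast hq
  have hGQ : (Fintype.card F : ℝ) ^ (n * n) ≤ 4 * (Fintype.card (GL (Fin n) F) : ℝ) := by
    have := card_GL (F := F) n hn
    rwa [Nat.card_eq_fintype_card] at this
  have hcs := sq_sum_le_card_mul_sum_sq (s := (univ : Finset (GL (Fin n) F × GL (Fin n) F)))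
    (f := fun p => ‖ft ψ X ((p.2 : Matrix (Fin n) (Fin n) F) * ξ *
      (p.1 : Matrix (Fin n) (Fin n) F))‖)
  rw [card_univ, Fintype.card_prod, Nat.cast_mul] at hcs
  refine numeric (Fintype.card (GL (Fin n) F) : ℝ) ((Fintype.card F : ℝ) ^ (n * n)) _ X.card _ _
    ξ.rank (rank_pos ξ hξ) ?_ (Real.rpow_pos_of_pos (by linarith) _) hδ (Nat.cast_nonneg _)
    (by positivity) hGQ (sq_bound ψ hψ X ξ c hc hX) hcs
  exact_mod_cast Fintype.card_pos

/-- the number of nonzero matrices, weighted by rank -/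
theorem sum_rank_lt {n : ℕ} (hn : 1 ≤ n) (ε : ℝ) (hε0 : 0 < ε)
    (hε : ε ≤ ((Fintype.card F : ℝ) ^ (4 * n))⁻¹) :
    ∑ ξ ∈ (univ : Finset (Matrix (Fin n) (Fin n) F)).filter (fun ξ => ξ ≠ 0), ε ^ ξ.rank < 1 := by
  have hq : 2 ≤ Fintype.card F := Fintype.one_lt_card
  have hQ : (2 : ℝ) ≤ (Fintype.card F : ℝ) := by exact_mod_cast hq
  set Q : ℝ := (Fintype.card F : ℝ) with hQdef
  have hQ0 : 0 < Q := by linarith
  have h1 : ∑ ξ ∈ (univ : Finset (Matrix (Fin n) (Fin n) F)).filter (fun ξ => ξ ≠ 0), ε ^ ξ.rank =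
      ∑ r ∈ Icc 1 n, ∑ ξ ∈ ((univ : Finset (Matrix (Fin n) (Fin n) F)).filter
        (fun ξ => ξ ≠ 0)).filter (fun ξ => ξ.rank = r), ε ^ ξ.rank := by
    symm
    apply sum_fiberwise_of_maps_to
    intro ξ hξ
    rw [mem_Icc]
    refine ⟨rank_pos ξ (mem_filter.1 hξ).2, ?_⟩
    simpa using Matrix.rank_le_card_height ξ
  have h2 : ∀ r ∈ Icc 1 n, ∑ ξ ∈ ((univ : Finset (Matrix (Fin n) (Fin n) F)).filter
        (fun ξ => ξ ≠ 0)).filter (fun ξ => ξ.rank = r), ε ^ ξ.rank ≤ (1 / 4) ^ r := by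
    intro r hr
    have e1 : ∑ ξ ∈ ((univ : Finset (Matrix (Fin n) (Fin n) F)).filter
        (fun ξ => ξ ≠ 0)).filter (fun ξ => ξ.rank = r), ε ^ ξ.rank =
        (((univ : Finset (Matrix (Fin n) (Fin n) F)).filter
        (fun ξ => ξ ≠ 0)).filter (fun ξ => ξ.rank = r)).card * ε ^ r := by
      rw [sum_congr rfl (g := fun _ => ε ^ r), sum_const, nsmul_eq_mul]
      intro ξ hξ
      rw [(mem_filter.1 hξ).2]
    have e2 : ((((univ : Finset (Matrix (Fin n) (Fin n) F)).filter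
        (fun ξ => ξ ≠ 0)).filter (fun ξ => ξ.rank = r)).card : ℝ) ≤ Q ^ (2 * n * r) := by
      have : (((univ : Finset (Matrix (Fin n) (Fin n) F)).filter
        (fun ξ => ξ ≠ 0)).filter (fun ξ => ξ.rank = r)).card ≤ Fintype.card F ^ (2 * n * r) := by
        refine le_trans (card_le_card ?_) (card_rank_le (F := F) n r)
        intro ξ hξ
        rw [mem_filter] at hξ ⊢
        exact ⟨mem_univ _, hξ.2.le⟩
      rw [hQdef]
      exact_mod_cast this
    rw [e1]
    calc _ ≤ Q ^ (2 * n * r) * ((Q ^ (4 * n))⁻¹) ^ r :=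
          mul_le_mul e2 (pow_le_pow_left₀ hε0.le hε r) (by positivity) (by positivity)
      _ = ((Q ^ (2 * n))⁻¹) ^ r := by
          rw [show 4 * n = 2 * n + 2 * n by ring, pow_add, mul_inv, mul_pow, pow_mul, ← mul_assoc,
            ← mul_pow, mul_inv_cancel₀ (by positivity), one_pow, one_mul]
      _ ≤ (1 / 4) ^ r := by
          apply pow_le_pow_left₀ (by positivity)
          rw [one_div]
          apply inv_anti₀ (by norm_num)
          calc (4 : ℝ) = 2 ^ 2 := by norm_num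
            _ ≤ Q ^ 2 := pow_le_pow_left₀ (by norm_num) hQ 2
            _ ≤ Q ^ (2 * n) := pow_le_pow_right₀ (by linarith) (by omega)
  have h3 : ∀ m : ℕ, ∑ r ∈ Icc 1 m, (1 / 4 : ℝ) ^ r ≤ 1 / 3 - (1 / 3) * (1 / 4) ^ m := by
    intro m
    induction m with
    | zero => simp
    | succ m ih =>
      rw [sum_Icc_succ_top (by omega)]
      have : (1 / 4 : ℝ) ^ (m + 1) = (1 / 4) ^ m / 4 := by ring
      rw [this]
      linarith
  calc _ = _ := h1
    _ ≤ ∑ r ∈ Icc 1 n, (1 / 4 : ℝ) ^ r := sum_le_sum h2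
    _ ≤ 1 / 3 - (1 / 3) * (1 / 4) ^ n := h3 n
    _ < 1 := by
      have : (0 : ℝ) < (1 / 4) ^ n := by positivity
      linarith

omit [Fintype F] [DecidableEq F] in
theorem char_sum (ψ : AddChar F ℂ) {ι : Type*} (s : Finset ι) (f : ι → F) :
    ψ (∑ i ∈ s, f i) = ∏ i ∈ s, ψ (f i) := by
  classical
  induction s using Finset.induction_on with
  | empty => simp
  | insert a s ha ih => rw [sum_insert ha, AddChar.map_add_eq_mul, prod_insert ha, ih]

theorem prod_split {μ : ℕ} (A B : ℝ) (x : Fin μ → ℝ) :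
    ∏ i, (A * (x i * B)) = A ^ μ * (∏ i, x i) * B ^ μ := by
  rw [prod_mul_distrib, prod_mul_distrib, prod_const, prod_const, card_univ, Fintype.card_fin]
  ring

/-- the counting step: a small Fourier tail forces the sumset to be everything -/
theorem cover_of_tail (ψ : AddChar F ℂ) (hψ : ψ ≠ 0) {n μ : ℕ}
    (X : Fin μ → Finset (Matrix (Fin n) (Fin n) F)) (g h : Fin μ → Matrix (Fin n) (Fin n) F)
    (htail : ∑ ξ ∈ (univ : Finset (Matrix (Fin n) (Fin n) F)).filter (fun ξ => ξ ≠ 0),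
      ∏ i, ‖ft ψ (X i) (h i * ξ * g i)‖ < ∏ i, ((X i).card : ℝ))
    (m : Matrix (Fin n) (Fin n) F) :
    ∃ x : Fin μ → Matrix (Fin n) (Fin n) F, (∀ i, x i ∈ X i) ∧ m = ∑ i, g i * x i * h i := by
  by_contra hcon
  push Not at hcon
  -- the double sum vanishes
  have h1 : ∑ ξ : Matrix (Fin n) (Fin n) F, ∑ x ∈ Fintype.piFinset X,
      ψ (trace (ξ * ((∑ i, g i * x i * h i) - m))) = 0 := by
    rw [sum_comm]
    apply sum_eq_zero
    intro x hx
    rw [ortho ψ hψ, if_neg]
    intro h2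
    rw [Fintype.mem_piFinset] at hx
    exact hcon x hx (sub_eq_zero.1 h2).symm
  have h2 : ∀ ξ : Matrix (Fin n) (Fin n) F, ∑ x ∈ Fintype.piFinset X,
      ψ (trace (ξ * ((∑ i, g i * x i * h i) - m))) =
        ψ (-trace (ξ * m)) * ∏ i, ft ψ (X i) (h i * ξ * g i) := by
    intro ξ
    simp only [ft]
    rw [prod_univ_sum, mul_sum]
    refine sum_congr rfl fun x _ => ?_
    rw [Matrix.mul_sub, Matrix.trace_sub, sub_eq_add_neg, AddChar.map_add_eq_mul, mul_comm]
    congr 1
    rw [Matrix.mul_sum, Matrix.trace_sum, char_sum]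
    refine prod_congr rfl fun i _ => ?_
    congr 1
    calc trace (ξ * (g i * x i * h i)) = trace (ξ * (g i * x i) * h i) := by
          simp only [Matrix.mul_assoc]
      _ = trace (h i * (ξ * (g i * x i))) := Matrix.trace_mul_comm _ _
      _ = trace (h i * ξ * g i * x i) := by simp only [Matrix.mul_assoc]
  simp_rw [h2] at h1
  rw [← sum_filter_add_sum_filter_not univ (fun ξ => ξ = 0), filter_eq' univ (0 : Matrix _ _ F),
    if_pos (mem_univ _), sum_singleton] at h1
  have h3 : ψ (-trace (0 * m)) * ∏ i, ft ψ (X i) (h i * 0 * g i) = ∏ i, ((X i).card : ℂ) := by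
    simp [ft]
  rw [h3] at h1
  have h4 : ‖∏ i, ((X i).card : ℂ)‖ = ∏ i, ((X i).card : ℝ) := by
    rw [norm_prod]
    simp
  have h5 : ∏ i, ((X i).card : ℝ) ≤
      ∑ ξ ∈ (univ : Finset (Matrix (Fin n) (Fin n) F)).filter (fun ξ => ξ ≠ 0),
      ∏ i, ‖ft ψ (X i) (h i * ξ * g i)‖ := by
    rw [← h4, eq_neg_of_add_eq_zero_left h1, norm_neg]
    refine (norm_sum_le _ _).trans (sum_le_sum fun ξ _ => ?_)
    rw [norm_mul, norm_prod]
    refine mul_le_of_le_one_left (prod_nonneg fun _ _ => norm_nonneg _) ?_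
    rw [AddChar.norm_apply]
  linarith

/-- the large case -/
theorem large {n μ : ℕ} (hn : 1 ≤ n) (c : ℝ) (hc : 0 < c)
    (hδ : 6 * (Fintype.card F : ℝ) ^ (-(c * n) / 16) ≤ 1) (hμ : 64 / c ≤ μ)
    (X : Fin μ → Finset (Matrix (Fin n) (Fin n) F))
    (hX : ∀ i, (Fintype.card F : ℝ) ^ (c * (n : ℝ) ^ 2) ≤ (X i).card) :
    ∃ g h : Fin μ → GL (Fin n) F, ∀ m : Matrix (Fin n) (Fin n) F,
      ∃ x : Fin μ → Matrix (Fin n) (Fin n) F, (∀ i, x i ∈ X i) ∧
        m = ∑ i, (g i : Matrix (Fin n) (Fin n) F) * x i * (h i : Matrix (Fin n) (Fin n) F) := by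
  classical
  obtain ⟨ψ, hψ⟩ := exists_char (F := F)
  have hq : 2 ≤ Fintype.card F := Fintype.one_lt_card
  have hQ : (2 : ℝ) ≤ (Fintype.card F : ℝ) := by exact_mod_cast hq
  have hQ0 : (0 : ℝ) < (Fintype.card F : ℝ) := by linarith
  by_contra hcon
  -- every choice has a large tail
  have hall : ∀ f : Fin μ → GL (Fin n) F × GL (Fin n) F, ∏ i, ((X i).card : ℝ) ≤
      ∑ ξ ∈ (univ : Finset (Matrix (Fin n) (Fin n) F)).filter (fun ξ => ξ ≠ 0),
        ∏ i, ‖ft ψ (X i) (((f i).2 : Matrix (Fin n) (Fin n) F) * ξ *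
          ((f i).1 : Matrix (Fin n) (Fin n) F))‖ := by
    intro f
    by_contra h1
    push Not at h1
    apply hcon
    refine ⟨fun i => (f i).1, fun i => (f i).2, ?_⟩
    exact cover_of_tail ψ hψ X _ _ h1
  set G : ℝ := (Fintype.card (GL (Fin n) F) : ℝ) with hG
  have hGpos : 0 < G := by
    rw [hG]
    exact_mod_cast Fintype.card_pos
  set δ : ℝ := (Fintype.card F : ℝ) ^ (-(c * n) / 16) with hδdef
  have hδ0 : 0 < δ := Real.rpow_pos_of_pos hQ0 _
  have hXpos : ∀ i, (0 : ℝ) < (X i).card := fun i =>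
    lt_of_lt_of_le (Real.rpow_pos_of_pos hQ0 _) (hX i)
  have hPpos : 0 < ∏ i, ((X i).card : ℝ) := prod_pos fun i _ => hXpos i
  -- sum over all choices
  have h1 : (G * G) ^ μ * ∏ i, ((X i).card : ℝ) ≤
      ∑ ξ ∈ (univ : Finset (Matrix (Fin n) (Fin n) F)).filter (fun ξ => ξ ≠ 0),
        ∏ i, ∑ p : GL (Fin n) F × GL (Fin n) F, ‖ft ψ (X i) ((p.2 : Matrix (Fin n) (Fin n) F) * ξ *
          (p.1 : Matrix (Fin n) (Fin n) F))‖ := by
    calc (G * G) ^ μ * ∏ i, ((X i).card : ℝ) =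
        ∑ _f : Fin μ → GL (Fin n) F × GL (Fin n) F, ∏ i, ((X i).card : ℝ) := by
          rw [sum_const, card_univ, nsmul_eq_mul, Fintype.card_fun, Fintype.card_prod,
            Fintype.card_fin]
          push_cast
          rfl
      _ ≤ ∑ f : Fin μ → GL (Fin n) F × GL (Fin n) F,
          ∑ ξ ∈ (univ : Finset (Matrix (Fin n) (Fin n) F)).filter (fun ξ => ξ ≠ 0),
        ∏ i, ‖ft ψ (X i) (((f i).2 : Matrix (Fin n) (Fin n) F) * ξ *
          ((f i).1 : Matrix (Fin n) (Fin n) F))‖ := sum_le_sum fun f _ => hall f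
      _ = _ := by
          rw [sum_comm]
          refine sum_congr rfl fun ξ _ => ?_
          rw [prod_univ_sum, Fintype.piFinset_univ]
  have h2 : ∑ ξ ∈ (univ : Finset (Matrix (Fin n) (Fin n) F)).filter (fun ξ => ξ ≠ 0),
        ∏ i, ∑ p : GL (Fin n) F × GL (Fin n) F, ‖ft ψ (X i) ((p.2 : Matrix (Fin n) (Fin n) F) * ξ *
          (p.1 : Matrix (Fin n) (Fin n) F))‖ ≤
      ∑ ξ ∈ (univ : Finset (Matrix (Fin n) (Fin n) F)).filter (fun ξ => ξ ≠ 0),
        ((G * G) ^ μ * ∏ i, ((X i).card : ℝ)) * (δ ^ μ) ^ ξ.rank := by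
    refine sum_le_sum fun ξ hξ => ?_
    have h3 : ((G * G) ^ μ * ∏ i, ((X i).card : ℝ)) * (δ ^ μ) ^ ξ.rank =
        ∏ i, (G * G * ((X i).card * δ ^ ξ.rank)) := by
      rw [prod_split, ← pow_mul, ← pow_mul, mul_comm μ ξ.rank]
    rw [h3]
    refine prod_le_prod (fun i _ => sum_nonneg fun _ _ => norm_nonneg _) fun i _ => ?_
    exact avg_bound ψ hψ hn (X i) ξ (mem_filter.1 hξ).2 c hc (hX i) hδ
  rw [← mul_sum] at h2
  have hε : δ ^ μ ≤ ((Fintype.card F : ℝ) ^ (4 * n))⁻¹ := by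
    rw [hδdef, delta_pow hQ0, ← Real.rpow_natCast, ← Real.rpow_neg hQ0.le]
    apply Real.rpow_le_rpow_of_exponent_le (by linarith)
    push_cast
    rw [div_le_iff₀ hc] at hμ
    have : (64 : ℝ) * n ≤ (μ * c) * n := mul_le_mul_of_nonneg_right hμ (Nat.cast_nonneg n)
    nlinarith
  have h3 := sum_rank_lt (F := F) hn (δ ^ μ) (pow_pos hδ0 μ) hε
  have h4 : ((G * G) ^ μ * ∏ i, ((X i).card : ℝ)) *
      ∑ ξ ∈ (univ : Finset (Matrix (Fin n) (Fin n) F)).filter (fun ξ => ξ ≠ 0),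
        (δ ^ μ) ^ ξ.rank < ((G * G) ^ μ * ∏ i, ((X i).card : ℝ)) * 1 :=
    mul_lt_mul_of_pos_left h3 (mul_pos (pow_pos (mul_pos hGpos hGpos) μ) hPpos)
  rw [mul_one] at h4
  exact absurd (h1.trans h2) (not_le.2 h4)

end Large

section Small

variable {F : Type*} [Field F]

/-- the additive span of the invertible matrices -/
def unitSpan (F : Type*) [Field F] (n : ℕ) : AddSubmonoid (Matrix (Fin n) (Fin n) F) :=
  AddSubmonoid.closure {A | IsUnit A}

theorem unit_mem {n : ℕ} (A : Matrix (Fin n) (Fin n) F) (hA : IsUnit A) : A ∈ unitSpan F n :=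
  AddSubmonoid.subset_closure hA

theorem single_mem_of_ne {n : ℕ} (i j : Fin n) (hij : i ≠ j) (c : F) :
    Matrix.single i j c ∈ unitSpan F n := by
  have h1 : IsUnit (Matrix.transvection i j c) := by
    rw [Matrix.isUnit_iff_isUnit_det, Matrix.det_transvection_of_ne i j hij]
    exact isUnit_one
  have h2 : Matrix.single i j c = Matrix.transvection i j c + (-1) := by
    rw [Matrix.transvection]
    abel
  rw [h2]
  exact add_mem (unit_mem _ h1) (unit_mem _ isUnit_one.neg)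

theorem single_mem {n : ℕ} (i j : Fin n) (c : F) : Matrix.single i j c ∈ unitSpan F n := by
  by_cases hij : i = j
  · subst hij
    by_cases hk : ∃ k, k ≠ i
    · obtain ⟨k, hk⟩ := hk
      have h1 : IsUnit (Matrix.transvection i k c * Matrix.transvection k i 1) := by
        rw [Matrix.isUnit_iff_isUnit_det, Matrix.det_mul, Matrix.det_transvection_of_ne i k hk.symm,
          Matrix.det_transvection_of_ne k i hk]
        simp
      have h2 : Matrix.single i i c = Matrix.transvection i k c * Matrix.transvection k i 1 +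
          (-1) + Matrix.single i k (-c) + Matrix.single k i (-1) := by
        rw [Matrix.transvection, Matrix.transvection, Matrix.add_mul, Matrix.mul_add,
          Matrix.mul_add, Matrix.one_mul, Matrix.one_mul, Matrix.mul_one,
          Matrix.single_mul_single_same, mul_one, ← Matrix.single_neg, ← Matrix.single_neg]
        abel
      rw [h2]
      exact add_mem (add_mem (add_mem (unit_mem _ h1) (unit_mem _ isUnit_one.neg))
        (single_mem_of_ne i k hk.symm _)) (single_mem_of_ne k i hk _)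
    · push Not at hk
      have hsub : Subsingleton (Fin n) := ⟨fun a b => (hk a).trans (hk b).symm⟩
      by_cases hc : c = 0
      · rw [hc, Matrix.single_zero]
        exact zero_mem _
      · apply unit_mem
        rw [Matrix.isUnit_iff_isUnit_det, Matrix.det_eq_elem_of_subsingleton _ i,
          Matrix.single_apply_same]
        exact isUnit_iff_ne_zero.2 hc
  · exact single_mem_of_ne i j hij c

theorem mem_of_single {n : ℕ} (H : AddSubmonoid (Matrix (Fin n) (Fin n) F))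
    (h : ∀ i j c, Matrix.single i j c ∈ H) (m : Matrix (Fin n) (Fin n) F) : m ∈ H := by
  rw [Matrix.matrix_eq_sum_single m]
  exact sum_mem fun i _ => sum_mem fun j _ => h i j _

/-- the additive span of the two-sided orbit of `z` -/
def orbitSpan {n : ℕ} (z : Matrix (Fin n) (Fin n) F) : AddSubmonoid (Matrix (Fin n) (Fin n) F) :=
  AddSubmonoid.closure {v | ∃ g h : Matrix (Fin n) (Fin n) F, IsUnit g ∧ IsUnit h ∧ v = g * z * h}

theorem unit_mul_mem {n : ℕ} (z g v : Matrix (Fin n) (Fin n) F) (hg : IsUnit g)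
    (hv : v ∈ orbitSpan z) : g * v ∈ orbitSpan z := by
  induction hv using AddSubmonoid.closure_induction with
  | mem x hx =>
    obtain ⟨a, b, ha, hb, rfl⟩ := hx
    exact AddSubmonoid.subset_closure ⟨g * a, b, hg.mul ha, hb, by simp only [Matrix.mul_assoc]⟩
  | zero =>
    rw [Matrix.mul_zero]
    exact zero_mem _
  | add x y _ _ hx hy =>
    rw [Matrix.mul_add]
    exact add_mem hx hy

theorem mul_unit_mem {n : ℕ} (z g v : Matrix (Fin n) (Fin n) F) (hg : IsUnit g)
    (hv : v ∈ orbitSpan z) : v * g ∈ orbitSpan z := by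
  induction hv using AddSubmonoid.closure_induction with
  | mem x hx =>
    obtain ⟨a, b, ha, hb, rfl⟩ := hx
    exact AddSubmonoid.subset_closure ⟨a, b * g, ha, hb.mul hg, by simp only [Matrix.mul_assoc]⟩
  | zero =>
    rw [Matrix.zero_mul]
    exact zero_mem _
  | add x y _ _ hx hy =>
    rw [Matrix.add_mul]
    exact add_mem hx hy

theorem mul_mem_left {n : ℕ} (z m v : Matrix (Fin n) (Fin n) F) (hv : v ∈ orbitSpan z) :
    m * v ∈ orbitSpan z := by
  have hm : m ∈ unitSpan F n := mem_of_single _ single_mem m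
  induction hm using AddSubmonoid.closure_induction with
  | mem x hx => exact unit_mul_mem z x v hx hv
  | zero =>
    rw [Matrix.zero_mul]
    exact zero_mem _
  | add x y _ _ hx hy =>
    rw [Matrix.add_mul]
    exact add_mem hx hy

theorem mul_mem_right {n : ℕ} (z m v : Matrix (Fin n) (Fin n) F) (hv : v ∈ orbitSpan z) :
    v * m ∈ orbitSpan z := by
  have hm : m ∈ unitSpan F n := mem_of_single _ single_mem m
  induction hm using AddSubmonoid.closure_induction with
  | mem x hx => exact mul_unit_mem z x v hx hv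
  | zero =>
    rw [Matrix.mul_zero]
    exact zero_mem _
  | add x y _ _ hx hy =>
    rw [Matrix.mul_add]
    exact add_mem hx hy

theorem orbitSpan_eq {n : ℕ} (z : Matrix (Fin n) (Fin n) F) (hz : z ≠ 0)
    (m : Matrix (Fin n) (Fin n) F) : m ∈ orbitSpan z := by
  obtain ⟨i, j, hij⟩ : ∃ i j, z i j ≠ 0 := by
    by_contra hcon
    push Not at hcon
    exact hz (by ext i j; exact hcon i j)
  have hzm : z ∈ orbitSpan z :=
    AddSubmonoid.subset_closure ⟨1, 1, isUnit_one, isUnit_one, by simp⟩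
  refine mem_of_single _ (fun k l c => ?_) m
  have h1 : Matrix.single k l c = Matrix.single k i (c / z i j) * z * Matrix.single j l 1 := by
    rw [Matrix.single_mul_mul_single]
    congr 1
    field_simp
  rw [h1]
  exact mul_mem_right z _ _ (mul_mem_left z _ _ hzm)

variable [Fintype F] [DecidableEq F]

/-- the sumset `S + g X h` -/
def addTwist {n : ℕ} (S X : Finset (Matrix (Fin n) (Fin n) F)) (g h : Matrix (Fin n) (Fin n) F) :
    Finset (Matrix (Fin n) (Fin n) F) := image₂ (fun s x => s + g * x * h) S X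

theorem grow {n : ℕ} (S X : Finset (Matrix (Fin n) (Fin n) F)) (hS : S.Nonempty)
    (hS' : S ≠ univ) (hX : 2 ≤ X.card) :
    ∃ g h : GL (Fin n) F, S.card < (addTwist S X g h).card := by
  by_contra hcon
  push Not at hcon
  obtain ⟨x, hx, y, hy, hxy⟩ := one_lt_card.1 (by omega : 1 < X.card)
  have hz : x - y ≠ 0 := sub_ne_zero.2 hxy
  -- translations by `w ∈ X`
  have htrans : ∀ (g h : GL (Fin n) F), ∀ w ∈ X, S.image (fun s => s +
      (g : Matrix (Fin n) (Fin n) F) * w * (h : Matrix (Fin n) (Fin n) F)) =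
        addTwist S X g h := by
    intro g h w hw
    apply eq_of_subset_of_card_le
    · intro a ha
      obtain ⟨s, hs, rfl⟩ := mem_image.1 ha
      exact mem_image₂.2 ⟨s, hs, w, hw, rfl⟩
    · rw [card_image_of_injective _ (add_left_injective _)]
      exact hcon g h
  let H : AddSubmonoid (Matrix (Fin n) (Fin n) F) :=
    { carrier := {v | ∀ s ∈ S, s + v ∈ S}
      zero_mem' := by
        intro s hs
        rwa [add_zero]
      add_mem' := by
        intro a b ha hb s hs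
        rw [← add_assoc]
        exact hb _ (ha s hs) }
  have hH : orbitSpan (x - y) ≤ H := by
    rw [orbitSpan, AddSubmonoid.closure_le]
    rintro v ⟨g, h, hg, hh, rfl⟩
    obtain ⟨g, rfl⟩ := hg
    obtain ⟨h, rfl⟩ := hh
    intro s hs
    have h1 : s + (g : Matrix (Fin n) (Fin n) F) * x * (h : Matrix (Fin n) (Fin n) F) ∈
        S.image (fun s => s + (g : Matrix (Fin n) (Fin n) F) * y *
          (h : Matrix (Fin n) (Fin n) F)) := by
      rw [htrans g h y hy, ← htrans g h x hx]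
      exact mem_image.2 ⟨s, hs, rfl⟩
    obtain ⟨s', hs', h2⟩ := mem_image.1 h1
    have h3 : s + (g : Matrix (Fin n) (Fin n) F) * (x - y) * (h : Matrix (Fin n) (Fin n) F) =
        s' := by
      rw [Matrix.mul_sub, Matrix.sub_mul, ← add_sub_assoc, ← h2, add_sub_cancel_right]
    rw [h3]
    exact hs'
  apply hS'
  obtain ⟨s, hs⟩ := hS
  rw [eq_univ_iff_forall]
  intro m
  have h1 : m - s ∈ H := hH (orbitSpan_eq (x - y) hz (m - s))
  have h2 := h1 s hs
  rwa [add_sub_cancel] at h2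

/-- the small case, by adding one set at a time -/
theorem small {n : ℕ} (μ : ℕ) (X : Fin μ → Finset (Matrix (Fin n) (Fin n) F))
    (hX : ∀ i, 2 ≤ (X i).card) :
    ∃ (g h : Fin μ → GL (Fin n) F) (S : Finset (Matrix (Fin n) (Fin n) F)),
      S.Nonempty ∧ (μ + 1 ≤ S.card ∨ S = univ) ∧ ∀ m ∈ S,
      ∃ x : Fin μ → Matrix (Fin n) (Fin n) F, (∀ i, x i ∈ X i) ∧
        m = ∑ i, (g i : Matrix (Fin n) (Fin n) F) * x i * (h i : Matrix (Fin n) (Fin n) F) := by
  induction μ with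
  | zero =>
    refine ⟨fun i => i.elim0, fun i => i.elim0, {0}, singleton_nonempty 0, Or.inl (by simp), ?_⟩
    intro m hm
    rw [mem_singleton] at hm
    subst hm
    exact ⟨fun i => i.elim0, fun i => i.elim0, by simp⟩
  | succ μ ih =>
    obtain ⟨g, h, S, hS, hcard, hrep⟩ := ih (fun i => X i.castSucc) (fun i => hX _)
    obtain ⟨g', h', hT⟩ : ∃ g' h' : GL (Fin n) F,
        μ + 1 + 1 ≤ (addTwist S (X (Fin.last μ)) g' h').card ∨
          addTwist S (X (Fin.last μ)) g' h' = univ := by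
      by_cases hS' : S = univ
      · refine ⟨1, 1, Or.inr ?_⟩
        obtain ⟨w, hw⟩ := card_pos.1 (lt_of_lt_of_le (by norm_num : 0 < 2) (hX (Fin.last μ)))
        rw [eq_univ_iff_forall]
        intro m
        rw [addTwist, mem_image₂]
        refine ⟨m - w, ?_, w, hw, ?_⟩
        · rw [hS']
          exact mem_univ _
        · simp
      · obtain ⟨g', h', hlt⟩ := grow S (X (Fin.last μ)) hS hS' (hX _)
        refine ⟨g', h', Or.inl ?_⟩
        have := hcard.resolve_right hS'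
        omega
    refine ⟨Fin.snoc g g', Fin.snoc h h', addTwist S (X (Fin.last μ)) g' h', ?_, hT, ?_⟩
    · obtain ⟨w, hw⟩ := card_pos.1 (lt_of_lt_of_le (by norm_num : 0 < 2) (hX (Fin.last μ)))
      exact Nonempty.image₂ hS ⟨w, hw⟩
    · intro m hm
      rw [addTwist, mem_image₂] at hm
      obtain ⟨s, hs, w, hw, rfl⟩ := hm
      obtain ⟨x, hx, hsx⟩ := hrep s hs
      refine ⟨Fin.snoc x w, ?_, ?_⟩
      · intro i
        refine Fin.lastCases ?_ (fun j => ?_) i
        · simpa using hw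
        · simpa using hx j
      · rw [Fin.sum_univ_castSucc, hsx]
        simp

end Small

end Pool.Agent.V11197.TwistedSums
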